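import Mathlib

/-!
# Binary words with distant repetitions only

For every `R` there are a number `m` and an infinite binary word in which, for every `p > 0`, no
factor of length `m + p / R` occurs again `p` places later. The proof counts finite words.
-/

set_option autoImplicit false

namespace Pool.Agent.H38.Ace.BaseWord

/-- no repetition with a gap `p` and of length `μ p` in the beginning of length `n` -/
def Good (μ : ℕ → ℕ) (n : ℕ) (y : ℕ → Bool) : Prop :=
  ∀ p i, 0 < p → i + p + μ p ≤ n → ∃ j < μ p, y (i + j) ≠ y (i + p + j)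

theorem Good.mono {μ : ℕ → ℕ} {n m : ℕ} {y : ℕ → Bool} (h : Good μ n y) (hm : m ≤ n) :
    Good μ m y := fun p i hp hi => h p i hp (hi.trans hm)

theorem Good.congr {μ : ℕ → ℕ} {n : ℕ} {y z : ℕ → Bool} (h : Good μ n y)
    (hyz : ∀ i < n, y i = z i) : Good μ n z := by
  intro p i hp hi
  obtain ⟨j, hj, hne⟩ := h p i hp hi
  refine ⟨j, hj, ?_⟩
  rwa [← hyz _ (by omega), ← hyz _ (by omega)]

open Classical in
/-- the good words of length `n`, written as numbers -/
noncomputable def LL (μ : ℕ → ℕ) (n : ℕ) : Finset ℕ :=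
  (Finset.range (2 ^ n)).filter (fun k => Good μ n (fun i => k.testBit i))

theorem mem_LL {μ : ℕ → ℕ} {n k : ℕ} :
    k ∈ LL μ n ↔ k < 2 ^ n ∧ Good μ n (fun i => k.testBit i) := by
  classical
  rw [LL, Finset.mem_filter, Finset.mem_range]

theorem mod_mem {μ : ℕ → ℕ} {n m k : ℕ} (h : Good μ n (fun i => k.testBit i)) (hm : m ≤ n) :
    k % 2 ^ m ∈ LL μ m := by
  rw [mem_LL]
  refine ⟨Nat.mod_lt _ (by positivity), ?_⟩
  refine (h.mono hm).congr fun i hi => ?_
  simp [Nat.testBit_mod_two_pow, hi]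

open Classical in
/-- the words with a repetition of gap `p` at the end -/
noncomputable def Bad (μ : ℕ → ℕ) (n p : ℕ) : Finset ℕ :=
  (Finset.range (2 ^ (n + 1))).filter (fun k => Good μ n (fun i => k.testBit i) ∧
    p + μ p ≤ n + 1 ∧ ∀ j < μ p, k.testBit (n + 1 - (p + μ p) + j) =
      k.testBit (n + 1 - μ p + j))

theorem mem_Bad {μ : ℕ → ℕ} {n p k : ℕ} :
    k ∈ Bad μ n p ↔ k < 2 ^ (n + 1) ∧ Good μ n (fun i => k.testBit i) ∧
    p + μ p ≤ n + 1 ∧ ∀ j < μ p, k.testBit (n + 1 - (p + μ p) + j) =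
      k.testBit (n + 1 - μ p + j) := by
  classical
  rw [Bad, Finset.mem_filter, Finset.mem_range]

theorem card_Bad {μ : ℕ → ℕ} {n p : ℕ} (hp : 0 < p) (hμ : 0 < μ p) :
    (Bad μ n p).card ≤ (LL μ (n + 1 - μ p)).card := by
  apply Finset.card_le_card_of_injOn (fun k => k % 2 ^ (n + 1 - μ p))
  · intro k hk
    rw [Finset.mem_coe, mem_Bad] at hk
    exact mod_mem hk.2.1 (by omega)
  · intro k hk k' hk' hkk
    rw [Finset.mem_coe, mem_Bad] at hk hk'
    obtain ⟨h1, -, h3, h4⟩ := hk
    obtain ⟨h1', -, -, h4'⟩ := hk'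
    simp only at hkk
    apply Nat.eq_of_testBit_eq
    intro t
    induction t using Nat.strong_induction_on with
    | _ t ih =>
      by_cases ht : t < n + 1 - μ p
      · have h5 := congrArg (fun z => z.testBit t) hkk
        simpa [Nat.testBit_mod_two_pow, ht] using h5
      · by_cases ht2 : t < n + 1
        · obtain ⟨j, rfl⟩ : ∃ j, t = n + 1 - μ p + j := ⟨t - (n + 1 - μ p), by omega⟩
          have h5 := h4 j (by omega)
          have h6 := h4' j (by omega)
          rw [← h5, ← h6]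
          exact ih _ (by omega)
        · have e : 2 ^ (n + 1) ≤ 2 ^ t := Nat.pow_le_pow_right (by norm_num) (by omega)
          rw [Nat.testBit_lt_two_pow (lt_of_lt_of_le h1 e),
            Nat.testBit_lt_two_pow (lt_of_lt_of_le h1' e)]

theorem card_step {μ : ℕ → ℕ} (hμ : ∀ p, 0 < μ p) (n : ℕ) :
    2 * (LL μ n).card ≤ (LL μ (n + 1)).card + ∑ p ∈ Finset.Icc 1 n, (Bad μ n p).card := by
  classical
  -- the extensions
  let E : Finset ℕ := (Finset.range (2 ^ (n + 1))).filter
    (fun k => Good μ n (fun i => k.testBit i))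
  have hE : 2 * (LL μ n).card ≤ E.card := by
    have h1 : (LL μ n ∪ (LL μ n).image (fun k => k + 2 ^ n)).card = 2 * (LL μ n).card := by
      rw [Finset.card_union_of_disjoint, Finset.card_image_of_injective, two_mul]
      · intro a b hab
        exact Nat.add_right_cancel hab
      · rw [Finset.disjoint_left]
        intro a ha hb
        rw [Finset.mem_image] at hb
        obtain ⟨c, -, hc⟩ := hb
        have := (mem_LL.1 ha).1
        omega
    rw [← h1]
    apply Finset.card_le_card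
    intro k hk
    rw [Finset.mem_union, Finset.mem_image] at hk
    have h2 : 2 ^ (n + 1) = 2 ^ n + 2 ^ n := by ring
    rw [Finset.mem_filter, Finset.mem_range]
    rcases hk with hk | ⟨c, hc, rfl⟩
    · rw [mem_LL] at hk
      exact ⟨by omega, hk.2⟩
    · rw [mem_LL] at hc
      refine ⟨by omega, hc.2.congr fun i hi => ?_⟩
      have e1 := Nat.testBit_mod_two_pow (c + 2 ^ n) n i
      have e2 := Nat.testBit_mod_two_pow c n i
      rw [Nat.add_mod_right, e2] at e1
      simpa [hi] using e1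
  have hsub : E ⊆ LL μ (n + 1) ∪ (Finset.Icc 1 n).biUnion (fun p => Bad μ n p) := by
    intro k hk
    rw [Finset.mem_filter, Finset.mem_range] at hk
    rw [Finset.mem_union]
    by_cases hg : Good μ (n + 1) (fun i => k.testBit i)
    · exact Or.inl (mem_LL.2 ⟨hk.1, hg⟩)
    · right
      unfold Good at hg
      push Not at hg
      obtain ⟨p, i, hp, hi, hj⟩ := hg
      have hi2 : i + p + μ p = n + 1 := by
        by_contra hne
        obtain ⟨j, hj1, hj2⟩ := hk.2 p i hp (by omega)
        exact hj2 (hj j hj1)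
      rw [Finset.mem_biUnion]
      have h0 := hμ p
      refine ⟨p, Finset.mem_Icc.2 ⟨hp, by omega⟩, mem_Bad.2 ⟨hk.1, hk.2, by omega, ?_⟩⟩
      intro j hj'
      have := hj j hj'
      rw [show n + 1 - (p + μ p) = i by omega, show n + 1 - μ p = i + p by omega]
      exact this
  calc 2 * (LL μ n).card ≤ E.card := hE
    _ ≤ _ := (Finset.card_le_card hsub).trans ((Finset.card_union_le _ _).trans
        (Nat.add_le_add_left Finset.card_biUnion_le _))

theorem card_ratio {μ : ℕ → ℕ} (hμ : ∀ p, 0 < μ p) 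
    (hsum : ∀ n, ∑ p ∈ Finset.Icc 1 n, (2 / 3 : ℝ) ^ (μ p - 1) ≤ 1 / 2) (n : ℕ) :
    (3 / 2 : ℝ) * (LL μ n).card ≤ (LL μ (n + 1)).card := by
  induction n using Nat.strong_induction_on with
  | _ n ih =>
    have hpow : ∀ k ≤ n, ((LL μ (n - k)).card : ℝ) ≤ (2 / 3 : ℝ) ^ k * (LL μ n).card := by
      intro k
      induction k with
      | zero => intro _; simp
      | succ k ihk =>
        intro hk
        have h1 := ihk (by omega)
        have h2 := ih (n - (k + 1)) (by omega)
        rw [show n - (k + 1) + 1 = n - k by omega] at h2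
        rw [pow_succ]
        nlinarith
    have h1 : (2 * (LL μ n).card : ℝ) ≤ (LL μ (n + 1)).card +
        ∑ p ∈ Finset.Icc 1 n, ((Bad μ n p).card : ℝ) := by
      exact_mod_cast card_step hμ n
    have h2 : ∑ p ∈ Finset.Icc 1 n, ((Bad μ n p).card : ℝ) ≤
        ∑ p ∈ Finset.Icc 1 n, (2 / 3 : ℝ) ^ (μ p - 1) * (LL μ n).card := by
      apply Finset.sum_le_sum
      intro p hp
      rw [Finset.mem_Icc] at hp
      have h0 := hμ p
      by_cases hpn : p + μ p ≤ n + 1
      · have h3 := card_Bad (μ := μ) (n := n) (p := p) (by omega) h0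
        have h4 := hpow (μ p - 1) (by omega)
        rw [show n - (μ p - 1) = n + 1 - μ p by omega] at h4
        exact le_trans (by exact_mod_cast h3) h4
      · have h3 : Bad μ n p = ∅ := by
          rw [Finset.eq_empty_iff_forall_notMem]
          intro k hk
          exact hpn (mem_Bad.1 hk).2.2.1
        rw [h3]
        simp only [Finset.card_empty, Nat.cast_zero]
        positivity
    rw [← Finset.sum_mul] at h2
    have h3 := hsum n
    have h4 : (0 : ℝ) ≤ (LL μ n).card := Nat.cast_nonneg _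
    nlinarith

theorem sum_pow_div (R k : ℕ) (hR : 0 < R) :
    ∑ p ∈ Finset.range (k * R), (2 / 3 : ℝ) ^ (p / R) ≤ 3 * R * (1 - (2 / 3) ^ k) := by
  induction k with
  | zero => simp
  | succ k ih =>
    rw [Nat.succ_mul, Finset.sum_range_add]
    have h1 : ∑ x ∈ Finset.range R, (2 / 3 : ℝ) ^ ((k * R + x) / R) = R * (2 / 3) ^ k := by
      rw [Finset.sum_congr rfl (g := fun _ => (2 / 3 : ℝ) ^ k)]
      · simp
      · intro x hx
        rw [Finset.mem_range] at hx
        congr 1
        rw [Nat.mul_comm, Nat.mul_add_div hR, Nat.div_eq_of_lt hx, Nat.add_zero]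
    rw [h1, pow_succ]
    linarith

theorem hsum_of (R m : ℕ) (hR : 0 < R) (hm : (2 / 3 : ℝ) ^ m * (3 * R) ≤ 1 / 2) (n : ℕ) :
    ∑ p ∈ Finset.Icc 1 n, (2 / 3 : ℝ) ^ ((m + 1 + p / R) - 1) ≤ 1 / 2 := by
  calc ∑ p ∈ Finset.Icc 1 n, (2 / 3 : ℝ) ^ ((m + 1 + p / R) - 1)
      = ∑ p ∈ Finset.Icc 1 n, (2 / 3 : ℝ) ^ m * (2 / 3 : ℝ) ^ (p / R) := by
        apply Finset.sum_congr rfl
        intro p _
        rw [show m + 1 + p / R - 1 = m + p / R by generalize p / R = z; omega, pow_add]
    _ ≤ ∑ p ∈ Finset.range ((n + 1) * R), (2 / 3 : ℝ) ^ m * (2 / 3 : ℝ) ^ (p / R) := by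
        apply Finset.sum_le_sum_of_subset_of_nonneg
        · intro p hp
          rw [Finset.mem_Icc] at hp
          rw [Finset.mem_range]
          have : (n + 1) * 1 ≤ (n + 1) * R := Nat.mul_le_mul_left _ hR
          omega
        · intro p _ _
          positivity
    _ = (2 / 3 : ℝ) ^ m * ∑ p ∈ Finset.range ((n + 1) * R), (2 / 3 : ℝ) ^ (p / R) := by
        rw [Finset.mul_sum]
    _ ≤ (2 / 3 : ℝ) ^ m * (3 * R * (1 - (2 / 3) ^ (n + 1))) := by
        apply mul_le_mul_of_nonneg_left (sum_pow_div R (n + 1) hR) (by positivity)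
    _ ≤ (2 / 3 : ℝ) ^ m * (3 * R) := by
        apply mul_le_mul_of_nonneg_left _ (by positivity)
        have h1 : (0 : ℝ) ≤ (2 / 3) ^ (n + 1) := by positivity
        have h2 : (0 : ℝ) ≤ R := Nat.cast_nonneg _
        nlinarith
    _ ≤ 1 / 2 := hm

theorem isClosed_good (μ : ℕ → ℕ) (n : ℕ) : IsClosed {y : ℕ → Bool | Good μ n y} := by
  unfold Good
  simp only [Set.ofPred_forall]
  refine isClosed_iInter fun p => isClosed_iInter fun i => isClosed_iInter fun _ =>
    isClosed_iInter fun _ => ?_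
  have h1 : {y : ℕ → Bool | ∃ j < μ p, y (i + j) ≠ y (i + p + j)} =
      ⋃ j ∈ Finset.range (μ p), {y : ℕ → Bool | y (i + j) ≠ y (i + p + j)} := by
    ext y
    simp
  rw [h1]
  apply Set.Finite.isClosed_biUnion (Finset.finite_toSet _)
  intro j _
  have h2 : {y : ℕ → Bool | y (i + j) ≠ y (i + p + j)} =
      (fun y : ℕ → Bool => (y (i + j), y (i + p + j))) ⁻¹' {z : Bool × Bool | z.1 ≠ z.2} := rfl
  rw [h2]
  apply (isClosed_discrete _).preimage
  exact (continuous_apply _).prodMk (continuous_apply _)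

/-- the base word -/
theorem exists_word (R : ℕ) (hR : 0 < R) : ∃ (m : ℕ) (x : ℕ → Bool),
    ∀ p i, 0 < p → ∃ j < m + p / R, x (i + j) ≠ x (i + p + j) := by
  obtain ⟨m, hm⟩ : ∃ m : ℕ, (2 / 3 : ℝ) ^ m * (3 * R) ≤ 1 / 2 := by
    obtain ⟨m, hm⟩ := exists_pow_lt_of_lt_one (show (0 : ℝ) < 1 / (6 * R) by positivity)
      (show (2 / 3 : ℝ) < 1 by norm_num)
    refine ⟨m, ?_⟩
    have h1 : (0 : ℝ) < R := by exact_mod_cast hR
    rw [lt_div_iff₀ (by positivity)] at hm
    linarith
  let μ : ℕ → ℕ := fun p => m + 1 + p / R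
  have hμ : ∀ p, 0 < μ p := fun p => by
    simp only [μ]
    generalize p / R = z
    omega
  have hcard : ∀ n, 0 < (LL μ n).card := by
    intro n
    induction n with
    | zero =>
      apply Finset.card_pos.2
      refine ⟨0, mem_LL.2 ⟨by norm_num, ?_⟩⟩
      intro p i hp hi
      omega
    | succ n ih =>
      have h1 := card_ratio hμ (hsum_of R m hR hm) n
      have h2 : (0 : ℝ) < (LL μ n).card := by exact_mod_cast ih
      have h3 : (0 : ℝ) < (LL μ (n + 1)).card := by linarith
      exact_mod_cast h3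
  have hne : (⋂ n, {y : ℕ → Bool | Good μ n y}).Nonempty := by
    apply IsCompact.nonempty_iInter_of_sequence_nonempty_isCompact_isClosed
    · intro n y hy
      exact Good.mono hy (Nat.le_succ n)
    · intro n
      obtain ⟨k, hk⟩ := Finset.card_pos.1 (hcard n)
      exact ⟨fun i => k.testBit i, (mem_LL.1 hk).2⟩
    · exact (isClosed_good μ 0).isCompact
    · exact fun n => isClosed_good μ n
  obtain ⟨x, hx⟩ := hne
  rw [Set.mem_iInter] at hx
  exact ⟨m + 1, x, fun p i hp => hx (i + p + μ p) p i hp le_rfl⟩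

end Pool.Agent.H38.Ace.BaseWord
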