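import Mathlib

/-!
# Asymptotic critical exponents and injective morphisms: definitions and blocks

Finite words are lists, infinite words are functions `ℕ → A`; a morphism is given by the images
`f a` of the letters.
-/

set_option autoImplicit false

open scoped ENNReal

namespace Pool.Agent.H38.Ace

variable {A B : Type}

/-- the factor of length `L` of the infinite word `y` at the place `n` -/
def fac (y : ℕ → A) (n L : ℕ) : List A := (List.range L).map (fun k => y (n + k))

/-- `u = v^r` with `r = |u| / |v|`: the word `v` is nonempty and `u` is a beginning of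
`v v v ⋯` -/
def IsPower (u v : List A) : Prop := v ≠ [] ∧ ∀ i < u.length, u[i]? = v[i % v.length]?

/-- the fractional exponent: the supremum of all `r` such that `u = v^r` for some nonempty `v` -/
noncomputable def expo (u : List A) : ℝ≥0∞ :=
  ⨆ (v : List A) (_ : IsPower u v), (u.length : ℝ≥0∞) / (v.length : ℝ≥0∞)

/-- the asymptotic critical exponent -/
noncomputable def ACE (w : ℕ → A) : ℝ≥0∞ :=
  Filter.limsup (fun m : ℕ => ⨆ n : ℕ, expo (fac w n m)) Filter.atTop

/-- the morphism with the images `f a` of the letters is injective -/
def InjMorphism (f : A → List B) : Prop := Function.Injective (fun x : List A => x.flatMap f)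

/-- the image of the infinite word `w`: its letter number `i` is the letter number `i` of the
image of the beginning of length `i + 1` of `w` -/
noncomputable def image [Nonempty B] (f : A → List B) (w : ℕ → A) (i : ℕ) : B :=
  ((fac w 0 (i + 1)).flatMap f).getD i (Classical.arbitrary B)

/-- the supremum of the asymptotic critical exponents of the images of `w` under injective
morphisms to words over `B` -/
noncomputable def ACEinj (B : Type) [Nonempty B] (w : ℕ → A) : ℝ≥0∞ :=
  ⨆ (f : A → List B) (_ : InjMorphism f), ACE (image f w)

/-- `S(n)`: the supremum of `ACEinj(w) / ACE(w)` over the infinite words `w` over `n` letters with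
a finite asymptotic critical exponent -/
noncomputable def S (B : Type) [Nonempty B] (n : ℕ) : ℝ≥0∞ :=
  ⨆ (w : ℕ → Fin n) (_ : ACE w ≠ ⊤), ACEinj B w / ACE w

theorem fac_length (y : ℕ → A) (n L : ℕ) : (fac y n L).length = L := by simp [fac]

theorem fac_add (y : ℕ → A) (n L M : ℕ) : fac y n (L + M) = fac y n L ++ fac y (n + L) M := by
  unfold fac
  rw [List.range_add, List.map_append, List.map_map]
  congr 1
  apply List.map_congr_left
  intro r _
  simp [add_assoc]

theorem fac_one (y : ℕ → A) (n : ℕ) : fac y n 1 = [y n] := by simp [fac]

theorem fac_succ (y : ℕ → A) (n L : ℕ) : fac y n (L + 1) = fac y n L ++ [y (n + L)] := by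
  rw [fac_add, fac_one]

theorem fac_getElem? (y : ℕ → A) (n L r : ℕ) (hr : r < L) : (fac y n L)[r]? = some (y (n + r)) := by
  simp [fac, hr]

theorem fac_congr (y z : ℕ → A) (n m L : ℕ) (h : ∀ i < L, y (n + i) = z (m + i)) :
    fac y n L = fac z m L := by
  unfold fac
  apply List.map_congr_left
  intro r hr
  exact h r (List.mem_range.1 hr)

/-- the place in the image where the image of the letter number `n` begins -/
def pos (f : A → List B) (w : ℕ → A) (n : ℕ) : ℕ := ((fac w 0 n).flatMap f).length

theorem pos_succ (f : A → List B) (w : ℕ → A) (n : ℕ) :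
    pos f w (n + 1) = pos f w n + (f (w n)).length := by
  unfold pos
  rw [fac_succ, List.flatMap_append, List.length_append]
  simp

theorem InjMorphism.ne_nil {f : A → List B} (h : InjMorphism f) (a : A) : f a ≠ [] := by
  intro h0
  have h1 : [a].flatMap f = [].flatMap f := by simp [h0]
  have := h h1
  simp at this

theorem InjMorphism.length_pos {f : A → List B} (h : InjMorphism f) (a : A) : 0 < (f a).length :=
  List.length_pos_iff.2 (h.ne_nil a)

theorem pos_strictMono {f : A → List B} (h : InjMorphism f) (w : ℕ → A) : StrictMono (pos f w) :=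
  strictMono_nat_of_lt_succ fun n => by
    have := h.length_pos (w n)
    rw [pos_succ]; omega

theorem le_pos {f : A → List B} (h : InjMorphism f) (w : ℕ → A) (n : ℕ) : n ≤ pos f w n :=
  (pos_strictMono h w).le_apply

theorem prefix_getElem? (f : A → List B) (w : ℕ → A) (N M i : ℕ) (hN : i < pos f w N)
    (hNM : N ≤ M) : ((fac w 0 M).flatMap f)[i]? = ((fac w 0 N).flatMap f)[i]? := by
  obtain ⟨k, rfl⟩ := Nat.exists_eq_add_of_le hNM
  rw [fac_add, List.flatMap_append, List.getElem?_append_left hN]

theorem image_eq [Nonempty B] {f : A → List B} (h : InjMorphism f) (w : ℕ → A) (N i : ℕ)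
    (hN : i < pos f w N) : ((fac w 0 N).flatMap f)[i]? = some (image f w i) := by
  have h1 : i < pos f w (i + 1) := lt_of_lt_of_le (Nat.lt_succ_self i) (le_pos h w _)
  have h2 : ((fac w 0 (i + 1)).flatMap f)[i]? = some (image f w i) := by
    unfold image
    rw [List.getD_eq_getElem _ _ h1, List.getElem?_eq_getElem h1]
  rcases le_total N (i + 1) with h3 | h3
  · rw [← prefix_getElem? f w N (i + 1) i hN h3, h2]
  · rw [prefix_getElem? f w (i + 1) N i h1 h3, h2]

theorem flat0 [Nonempty B] {f : A → List B} (h : InjMorphism f) (w : ℕ → A) (n : ℕ) :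
    (fac w 0 n).flatMap f = fac (image f w) 0 (pos f w n) := by
  apply List.ext_getElem?
  intro i
  by_cases hi : i < pos f w n
  · rw [image_eq h w n i hi, fac_getElem? _ _ _ _ hi, Nat.zero_add]
  · rw [List.getElem?_eq_none (by exact not_lt.1 hi),
      List.getElem?_eq_none (by rw [fac_length]; exact not_lt.1 hi)]

theorem block [Nonempty B] {f : A → List B} (h : InjMorphism f) (w : ℕ → A) (n : ℕ) :
    f (w n) = fac (image f w) (pos f w n) (f (w n)).length := by
  have h1 := flat0 h w (n + 1)
  rw [fac_succ, List.flatMap_append, flat0 h w n, pos_succ, fac_add] at h1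
  have h2 := List.append_cancel_left h1
  simpa using h2

theorem flat [Nonempty B] {f : A → List B} (h : InjMorphism f) (w : ℕ → A) (n L : ℕ) :
    (fac w n L).flatMap f = fac (image f w) (pos f w n) (pos f w (n + L) - pos f w n) := by
  induction L with
  | zero => simp [fac]
  | succ L ih =>
    have hm := (pos_strictMono h w).monotone (show n ≤ n + L by omega)
    rw [fac_succ, List.flatMap_append, ih, ← add_assoc, pos_succ,
      show pos f w (n + L) + (f (w (n + L))).length - pos f w n =
        (pos f w (n + L) - pos f w n) + (f (w (n + L))).length by omega, fac_add,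
      show pos f w n + (pos f w (n + L) - pos f w n) = pos f w (n + L) by omega, ← block h]
    simp

/-- every place of the image lies in a block -/
theorem exists_block {f : A → List B} (h : InjMorphism f) (w : ℕ → A) (x : ℕ) :
    ∃ j, pos f w j ≤ x ∧ x < pos f w j + (f (w j)).length := by
  classical
  have hex : ∃ j, x < pos f w (j + 1) := ⟨x, lt_of_lt_of_le (Nat.lt_succ_self x) (le_pos h w _)⟩
  refine ⟨Nat.find hex, ?_, ?_⟩
  · by_contra hc
    push Not at hc
    rcases Nat.eq_zero_or_pos (Nat.find hex) with h0 | h0
    · rw [h0] at hc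
      have : pos f w 0 = 0 := by simp [pos, fac]
      omega
    · have := Nat.find_min hex (show Nat.find hex - 1 < Nat.find hex by omega)
      rw [Nat.sub_add_cancel h0] at this
      exact this hc
  · rw [← pos_succ]
    exact Nat.find_spec hex

theorem pos_add_le {f : A → List B} {L : ℕ} (hL : ∀ a, (f a).length ≤ L) (w : ℕ → A) (j M : ℕ) :
    pos f w (j + M) ≤ pos f w j + L * M := by
  induction M with
  | zero => simp
  | succ M ih =>
    have := hL (w (j + M))
    rw [← add_assoc, pos_succ, Nat.mul_succ]
    omega

/-- commuting words -/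
theorem isPower_of_comm (V W : List A) (hV : V ≠ []) (h : V ++ W = W ++ V) : IsPower W V := by
  refine ⟨hV, ?_⟩
  have hV0 : 0 < V.length := List.length_pos_iff.2 hV
  intro i
  induction i using Nat.strong_induction_on with
  | _ i ih =>
    intro hi
    have h1 : (V ++ W)[i]? = (W ++ V)[i]? := by rw [h]
    rw [List.getElem?_append_left hi] at h1
    by_cases hiV : i < V.length
    · rw [List.getElem?_append_left hiV] at h1
      rw [← h1, Nat.mod_eq_of_lt hiV]
    · push Not at hiV
      rw [List.getElem?_append_right hiV, ih (i - V.length) (by omega) (by omega)] at h1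
      rw [← h1, ← Nat.mod_eq_sub_mod hiV]

end Pool.Agent.H38.Ace
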