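import Pool.Agent.H38.Ace.Basic

/-!
# Repetitions in the image come from repetitions, and critical positions
-/

set_option autoImplicit false

namespace Pool.Agent.H38.Ace

variable {A B : Type}

theorem per_mod {G : ℕ → B} {q : ℕ} (hG : ∀ i, G (i + q) = G i) (i k : ℕ) :
    G (i + k * q) = G i := by
  induction k with
  | zero => simp
  | succ k ih => rw [Nat.succ_mul, ← add_assoc, hG, ih]

theorem per_region {T : ℕ → B} {q l : ℕ} (hq : 0 < q)
    (hper : ∀ i, i + q < l → T (i + q) = T i) (i : ℕ) (hi : i < l) : T i = T (i % q) := by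
  induction i using Nat.strong_induction_on with
  | _ i ih =>
    by_cases h : i < q
    · rw [Nat.mod_eq_of_lt h]
    · push Not at h
      have h1 := hper (i - q) (by omega)
      rw [Nat.sub_add_cancel h] at h1
      rw [h1, ih (i - q) (by omega) (by omega), ← Nat.mod_eq_sub_mod h]

theorem core [Nonempty B] {f : A → List B} (h : InjMorphism f) (w : ℕ → A) (s l q : ℕ)
    (hq : 0 < q)
    (hper : ∀ i, i + q < l → image f w (s + (i + q)) = image f w (s + i))
    (t : ℕ) (ht : 0 < t) (J : ℕ → ℕ) (hJ : ∀ r < t, J r < J (r + 1))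
    (hs : s ≤ pos f w (J 0)) (he : pos f w (J t) ≤ s + l)
    (hd : ∀ r ≤ t, q ∣ pos f w (J r) - pos f w (J 0)) :
    ∃ V, IsPower (fac w (J 0) (J t - J 0)) V ∧ t * V.length ≤ J t - J 0 := by
  classical
  have hmono : ∀ r ≤ t, ∀ r' ≤ r, J r' ≤ J r := by
    intro r
    induction r with
    | zero => intro _ r' h'; rw [Nat.le_zero.1 h']
    | succ r ih =>
      intro hr r' h'
      rcases Nat.lt_or_ge r' (r + 1) with h1 | h1
      · exact (ih (by omega) r' (by omega)).trans (hJ r (by omega)).le
      · have : r' = r + 1 := by omega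
        rw [this]
  obtain ⟨r, hr, hmin⟩ := Finset.exists_min_image (Finset.range t) (fun r => J (r + 1) - J r)
    ⟨0, Finset.mem_range.2 ht⟩
  have hr' : r < t := Finset.mem_range.1 hr
  have hsum : ∀ r' ≤ t, r' * (J (r + 1) - J r) + J 0 ≤ J r' := by
    intro r'
    induction r' with
    | zero => intro _; simp
    | succ r' ih =>
      intro h'
      have h1 := ih (by omega)
      have h2 := hmin r' (Finset.mem_range.2 (by omega))
      have h3 := hJ r' (by omega)
      rw [Nat.succ_mul]
      change J (r + 1) - J r ≤ J (r' + 1) - J r' at h2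
      omega
  have hpm := (pos_strictMono h w)
  -- the periodic word
  set c := pos f w (J 0) - s with hc
  let G : ℕ → B := fun i => image f w (s + (c + i) % q)
  have hG : ∀ i, G (i + q) = G i := by
    intro i
    simp only [G]
    rw [← add_assoc, Nat.add_mod_right]
  have hGe : ∀ i, c + i < l → image f w (pos f w (J 0) + i) = G i := by
    intro i hi
    have := per_region (T := fun i => image f w (s + i)) hq hper (c + i) hi
    simp only [G]
    rw [← this]
    congr 1
    omega
  have hseg : ∀ r1 ≤ t, ∀ r2 ≤ r1, (fac w (J r2) (J r1 - J r2)).flatMap f =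
      fac G 0 (pos f w (J r1) - pos f w (J r2)) := by
    intro r1 hr1 r2 hr2
    have hJJ := hmono r1 hr1 r2 hr2
    rw [flat h, show J r2 + (J r1 - J r2) = J r1 by omega]
    have h0 := hpm.monotone (hmono r2 (by omega) 0 (by omega))
    have h1 := hpm.monotone hJJ
    have h2 := hpm.monotone (hmono t le_rfl r1 hr1)
    obtain ⟨k, hk⟩ := hd r2 (by omega)
    apply fac_congr
    intro i hi
    rw [Nat.zero_add, ← per_mod hG i k, mul_comm k q, ← hk, ← hGe]
    · congr 1
      omega
    · omega
  have hdv : q ∣ pos f w (J (r + 1)) - pos f w (J r) := by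
    obtain ⟨k1, hk1⟩ := hd (r + 1) (by omega)
    obtain ⟨k2, hk2⟩ := hd r (by omega)
    have h0 := hpm.monotone (hmono r (by omega) 0 (by omega))
    have h1 := hpm.monotone (hmono (r + 1) (by omega) r (by omega))
    refine ⟨k1 - k2, ?_⟩
    rw [Nat.mul_sub, ← hk1, ← hk2]
    omega
  have hdw : q ∣ pos f w (J t) - pos f w (J 0) := hd t le_rfl
  have hfacG : ∀ a, q ∣ a → ∀ m, fac G a m = fac G 0 m := by
    intro a ha m
    obtain ⟨k, rfl⟩ := ha
    apply fac_congr
    intro i _
    rw [Nat.zero_add, Nat.add_comm, mul_comm, per_mod hG]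
  refine ⟨fac w (J r) (J (r + 1) - J r), isPower_of_comm _ _ ?_ ?_, ?_⟩
  · intro h0
    have h1 := congrArg List.length h0
    rw [fac_length] at h1
    have := hJ r hr'
    simp at h1
    omega
  · apply h
    simp only [List.flatMap_append]
    rw [hseg (r + 1) (by omega) r (by omega), hseg t le_rfl 0 (by omega)]
    generalize pos f w (J (r + 1)) - pos f w (J r) = x at *
    generalize pos f w (J t) - pos f w (J 0) = y at *
    have e1 : fac G 0 (x + y) = fac G 0 x ++ fac G 0 y := by
      rw [fac_add, Nat.zero_add, hfacG x hdv y]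
    have e2 : fac G 0 (y + x) = fac G 0 y ++ fac G 0 x := by
      rw [fac_add, Nat.zero_add, hfacG y hdw x]
    rw [← e1, ← e2, add_comm]
  · rw [fac_length]
    have := hsum t le_rfl
    omega

/-! ## Critical positions -/

/-- the number in base `b` written by the letters number `a`, ..., `a + m - 1` -/
def val (b : ℕ) (g : ℕ → ℕ) (a : ℕ) : ℕ → ℕ
  | 0 => 0
  | (m + 1) => val b g a m * b + g (a + m)

theorem val_lt {b : ℕ} {g : ℕ → ℕ} (hg : ∀ i, g i < b) (a m : ℕ) : val b g a m < b ^ m := by
  induction m with
  | zero => simp [val]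
  | succ m ih =>
    have h1 := hg (a + m)
    rw [val, pow_succ]
    calc val b g a m * b + g (a + m) < val b g a m * b + b := by omega
      _ = (val b g a m + 1) * b := by ring
      _ ≤ b ^ m * b := Nat.mul_le_mul_right b ih

theorem val_add (b : ℕ) (g : ℕ → ℕ) (a m k : ℕ) :
    val b g a (m + k) = val b g a m * b ^ k + val b g (a + m) k := by
  induction k with
  | zero => simp [val]
  | succ k ih =>
    rw [← add_assoc, val, ih, val, pow_succ, add_assoc a m k]
    ring

theorem val_congr (b : ℕ) {g : ℕ → ℕ} {a a' m : ℕ} (hh : ∀ i < m, g (a + i) = g (a' + i)) :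
    val b g a m = val b g a' m := by
  induction m with
  | zero => rfl
  | succ m ih => rw [val, val, ih (fun i hi => hh i (by omega)), hh m (by omega)]

theorem val_inj {b : ℕ} {g : ℕ → ℕ} (hg : ∀ i, g i < b) {a a' m : ℕ}
    (hh : val b g a m = val b g a' m) : ∀ i < m, g (a + i) = g (a' + i) := by
  induction m with
  | zero => intro i hi; omega
  | succ m ih =>
    rw [val, val] at hh
    have hb : 0 < b := lt_of_le_of_lt (Nat.zero_le _) (hg 0)
    have h1 : g (a + m) = g (a' + m) := by
      have := congrArg (· % b) hh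
      simp only [Nat.mul_add_mod_self_right] at this
      rwa [Nat.mod_eq_of_lt (hg _), Nat.mod_eq_of_lt (hg _)] at this
    have h2 : val b g a m = val b g a' m := by
      rw [h1] at hh
      exact Nat.eq_of_mul_eq_mul_right hb (Nat.add_right_cancel hh)
    intro i hi
    rcases Nat.lt_or_ge i m with h3 | h3
    · exact ih h2 i h3
    · rw [show i = m by omega, h1]

/-- critical positions exist -/
theorem critical (T : ℕ → B) (q : ℕ) (hq : 0 < q) (hT : ∀ i, T (i + q) = T i)
    (hmin : ∀ d, 0 < d → d < q → ∃ i, T (i + d) ≠ T i) :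
    ∃ c, ∀ d, 0 < d → d < q → ∀ x, x % q = c % q → d ≤ x →
      ∃ i < d, T (x - d + i) ≠ T (x + i) := by
  classical
  have hex : ∀ i, ∃ j, T j = T i := fun i => ⟨i, rfl⟩
  let g : ℕ → ℕ := fun i => Nat.find (hex i)
  have hTmod : ∀ i, T (i % q) = T i := by
    intro i
    conv_rhs => rw [← Nat.mod_add_div' i q]
    rw [per_mod hT]
  have hgq : ∀ i, g i < q := by
    intro i
    have : g i ≤ i % q := Nat.find_min' (hex i) (hTmod i)
    exact this.trans_lt (Nat.mod_lt _ hq)
  have hgT : ∀ i j, g i = g j → T i = T j := by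
    intro i j hij
    have h1 := Nat.find_spec (hex i)
    have h2 := Nat.find_spec (hex j)
    change T (g i) = T i at h1
    change T (g j) = T j at h2
    rw [← h1, ← h2, hij]
  have hTg : ∀ i j, T i = T j → g i = g j := by
    intro i j hij
    simp only [g]
    congr 1
    ext k
    rw [hij]
  have hgper : ∀ i, g (i + q) = g i := fun i => hTg _ _ (hT i)
  obtain ⟨c, -, hc⟩ := Finset.exists_min_image (Finset.range q) (fun c => val q g c q)
    ⟨0, Finset.mem_range.2 hq⟩
  have hvmod : ∀ a m, val q g (a % q) m = val q g a m := by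
    intro a m
    apply val_congr
    intro i _
    conv_rhs => rw [← Nat.mod_add_div' a q]
    rw [show a % q + a / q * q + i = (a % q + i) + a / q * q by ring, per_mod hgper]
  refine ⟨c, fun d hd hdq x hx hdx => ?_⟩
  by_contra hcon
  push Not at hcon
  have hxmin : ∀ y, val q g x q ≤ val q g y q := by
    intro y
    rw [← hvmod x, hx, hvmod, ← hvmod y]
    exact hc _ (Finset.mem_range.2 (Nat.mod_lt _ hq))
  have e1 : val q g (x - d) q = val q g (x - d) d * q ^ (q - d) + val q g x (q - d) := by
    have := val_add q g (x - d) d (q - d)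
    rwa [Nat.sub_add_cancel hdx, Nat.add_sub_cancel' hdq.le] at this
  have e2 : val q g x q = val q g x d * q ^ (q - d) + val q g (x + d) (q - d) := by
    have := val_add q g x d (q - d)
    rwa [Nat.add_sub_cancel' hdq.le] at this
  have e3 : val q g x q = val q g x (q - d) * q ^ d + val q g (x + (q - d)) d := by
    have := val_add q g x (q - d) d
    rwa [Nat.sub_add_cancel hdq.le] at this
  have e4 : val q g (x + d) q = val q g (x + d) (q - d) * q ^ d + val q g x d := by
    have := val_add q g (x + d) (q - d) d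
    rw [Nat.sub_add_cancel hdq.le, show x + d + (q - d) = x + q by omega] at this
    rw [this]
    congr 1
    apply val_congr
    intro i _
    rw [show x + q + i = x + i + q by ring, hgper]
  have hz : val q g (x - d) d = val q g x d := val_congr q (fun i hi => hTg _ _ (hcon i hi))
  have h1 : val q g (x + d) (q - d) ≤ val q g x (q - d) := by
    have := hxmin (x - d)
    rw [e1, e2, hz] at this
    omega
  have h2 : val q g x (q - d) ≤ val q g (x + d) (q - d) := by
    by_contra hlt
    push Not at hlt
    have h3 := hxmin (x + d)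
    rw [e3, e4] at h3
    have h4 := val_lt hgq x d
    have h5 : (val q g (x + d) (q - d) + 1) * q ^ d ≤ val q g x (q - d) * q ^ d :=
      Nat.mul_le_mul_right _ hlt
    rw [Nat.add_mul, Nat.one_mul] at h5
    omega
  have h3 : val q g (x - d) q = val q g x q := by
    rw [e1, e2, hz, le_antisymm h1 h2]
  have h4 := val_inj hgq h3
  obtain ⟨i, hi⟩ := hmin d hd hdq
  apply hi
  -- the number `i + d` is congruent to `x + r` for some `r < q`
  obtain ⟨r, hr, hrx⟩ : ∃ r < q, (x + r) % q = (i + d) % q := by
    refine ⟨(i + d + (x * q - x)) % q, Nat.mod_lt _ hq, ?_⟩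
    rw [Nat.add_mod_mod, show x + (i + d + (x * q - x)) = i + d + x * q by
      have : x ≤ x * q := Nat.le_mul_of_pos_right x hq
      omega]
    simp
  have h5 := hgT _ _ (h4 r hr)
  have h6 : (x - d + r) % q = i % q := by
    have : (x - d + r) + d ≡ i + d [MOD q] := by
      unfold Nat.ModEq
      rw [show x - d + r + d = x + r by omega, hrx]
    exact Nat.ModEq.add_right_cancel' d this
  calc T (i + d) = T (x + r) := by rw [← hTmod, ← hrx, hTmod]
    _ = T (x - d + r) := h5.symm
    _ = T i := by rw [← hTmod, h6, hTmod]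

end Pool.Agent.H38.Ace
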