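import Pool.Agent.H38.Ace.Mor

/-!
# The lower bound: the code and the syllables
-/

set_option autoImplicit false

namespace Pool.Agent.H38.Ace.Low

/-- the parameters of the construction -/
structure Prm where
  /-- the number of classes -/
  k : ℕ
  /-- the number of tails for one head -/
  Λ : ℕ
  /-- the weight of a head -/
  P : ℕ
  /-- the length of the blocks of the letter zero -/
  J : ℕ
  /-- the unit of the code -/
  H : ℕ
  /-- the base word -/
  x : ℕ → Bool
  /-- the additive constant of the base word -/
  m0 : ℕ
  /-- the multiplicative constant of the base word -/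
  ρ : ℕ
  hk : 0 < k
  hΛ : 0 < Λ
  hP : 4 ≤ P
  hJ : 0 < J
  hH : 0 < H
  hρ : 0 < ρ
  hx : ∀ q i, 0 < q → ∃ j < m0 + q / ρ, x (i + j) ≠ x (i + q + j)

/-- the types of the syllables -/
inductive Ty
  | T (b : Bool)
  | V (b : Bool)
  | M

/-- the number of letters `last` of a syllable -/
def mu (p : Prm) (κ : Fin p.k) : Ty → ℕ
  | .T b => b.toNat
  | .V b => p.P + b.toNat
  | .M => if κ.val + 1 = p.k then 3 else 2

/-- the syllables -/
def phi (p : Prm) (s : Fin p.k × Ty) : List (Fin (p.k + 1)) :=
  if s.1.val = 0 then
    List.replicate p.J 0 ++ List.replicate (mu p s.1 s.2 + 1) (Fin.last p.k)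
  else s.1.castSucc :: List.replicate (mu p s.1 s.2) (Fin.last p.k)

/-- the code -/
def ff (p : Prm) {B : Type} (z o : B) (a : Fin (p.k + 1)) : List B :=
  if a.val = 0 then [z] else
    List.replicate (p.H * a.val) o ++ (List.replicate (if a.val = p.k then 0 else p.J) z ++
      List.replicate (p.H * (p.k - a.val)) o)

theorem ff_get_z (p : Prm) {B : Type} (z o : B) (a : Fin (p.k + 1)) (ha : a.val < p.k)
    (u : List B) : (ff p z o a ++ u)[p.H * a.val]? = some z := by
  have hJ := p.hJ
  unfold ff
  split_ifs with h1 h2
  · simp [h1]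
  · omega
  · rw [List.append_assoc, List.getElem?_append_right (by simp), List.append_assoc]
    rw [List.getElem?_append_left (by simp; omega)]
    simp [hJ]

theorem ff_get_o (p : Prm) {B : Type} (z o : B) (a : Fin (p.k + 1)) (ha : 0 < a.val)
    (u : List B) (i : ℕ) (hi : i < p.H * a.val) : (ff p z o a ++ u)[i]? = some o := by
  unfold ff
  rw [if_neg (by omega), List.append_assoc, List.getElem?_append_left (by simpa using hi)]
  simp [hi]

theorem ff_head {p : Prm} {B : Type} {z o : B} (hzo : z ≠ o) {a b : Fin (p.k + 1)} {u v : List B}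
    (h : ff p z o a ++ u = ff p z o b ++ v) : a = b := by
  have key : ∀ (a b : Fin (p.k + 1)) (u v : List B), ff p z o a ++ u = ff p z o b ++ v →
      ¬ a.val < b.val := by
    intro a b u v h hlt
    have hb := b.2
    have h1 := ff_get_z p z o a (by omega) u
    have h2 := ff_get_o p z o b (by omega) v (p.H * a.val) (Nat.mul_lt_mul_of_pos_left hlt p.hH)
    rw [h, h2] at h1
    exact hzo (Option.some.inj h1).symm
  have h1 := key a b u v h
  have h2 := key b a v u h.symm
  apply Fin.ext
  omega

theorem ff_length_pos (p : Prm) {B : Type} (z o : B) (a : Fin (p.k + 1)) :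
    0 < (ff p z o a).length := by
  unfold ff
  split_ifs with h1 h2
  · simp
  · have : 0 < p.H * a.val := Nat.mul_pos p.hH (by omega)
    rw [List.length_append, List.length_replicate]
    omega
  · have : 0 < p.H * a.val := Nat.mul_pos p.hH (by omega)
    rw [List.length_append, List.length_replicate]
    omega

theorem ff_injMorphism (p : Prm) {B : Type} {z o : B} (hzo : z ≠ o) :
    InjMorphism (ff p z o) := by
  intro x
  induction x with
  | nil =>
    intro y h
    cases y with
    | nil => rfl
    | cons b y =>
      exfalso
      have := congrArg List.length h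
      have h2 := ff_length_pos p z o b
      simp only [List.flatMap_cons, List.flatMap_nil, List.length_append, List.length_nil] at this
      omega
  | cons a x ih =>
    intro y h
    cases y with
    | nil =>
      exfalso
      have := congrArg List.length h
      have h2 := ff_length_pos p z o a
      simp only [List.flatMap_cons, List.flatMap_nil, List.length_append, List.length_nil] at this
      omega
    | cons b y =>
      simp only [List.flatMap_cons] at h
      have h1 := ff_head hzo h
      subst h1
      rw [ih (List.append_cancel_left h)]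

/-! ### the image of the syllables -/

/-- the exponent of the letter `o` in the image of a syllable -/
def gl (p : Prm) : Ty → ℕ
  | .T b => p.H * p.k * (b.toNat + 1)
  | .V b => p.H * p.k * (p.P + b.toNat + 1)
  | .M => 3 * (p.H * p.k) + p.H

/-- the images of the syllables, up to conjugation -/
def G (p : Prm) {B : Type} (z o : B) (τ : Ty) : List B :=
  List.replicate p.J z ++ List.replicate (gl p τ) o

theorem ff_last (p : Prm) {B : Type} (z o : B) :
    ff p z o (Fin.last p.k) = List.replicate (p.H * p.k) o := by
  have := p.hk
  unfold ff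
  rw [if_neg (by simp; omega)]
  simp

theorem flat_last (p : Prm) {B : Type} (z o : B) (n : ℕ) :
    (List.replicate n (Fin.last p.k)).flatMap (ff p z o) =
      List.replicate (n * (p.H * p.k)) o := by
  induction n with
  | zero => simp
  | succ n ih =>
    rw [List.replicate_succ, List.flatMap_cons, ih, ff_last, ← List.replicate_add]
    congr 1
    ring

theorem flat_zero (p : Prm) {B : Type} (z o : B) (n : ℕ) :
    (List.replicate n (0 : Fin (p.k + 1))).flatMap (ff p z o) = List.replicate n z := by
  induction n with
  | zero => simp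
  | succ n ih =>
    rw [List.replicate_succ, List.flatMap_cons, ih]
    simp [ff, List.replicate_succ]

theorem ff_mid (p : Prm) {B : Type} (z o : B) (κ : Fin p.k) (hκ : κ.val ≠ 0) :
    ff p z o κ.castSucc = List.replicate (p.H * κ.val) o ++ (List.replicate p.J z ++
      List.replicate (p.H * (p.k - κ.val)) o) := by
  have := κ.2
  unfold ff
  rw [if_neg (by simpa using hκ), if_neg (by simp; omega)]
  simp

theorem flat_phi (p : Prm) {B : Type} (z o : B) (κ : Fin p.k) (τ : Ty) (e : ℕ)
    (hg : gl p τ + p.H * κ.val = p.H * p.k * (mu p κ τ + 1) + e) :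
    (phi p (κ, τ)).flatMap (ff p z o) ++ List.replicate e o =
      List.replicate (p.H * κ.val) o ++ G p z o τ := by
  have hκ2 := κ.2
  unfold phi G
  by_cases h0 : κ.val = 0
  · rw [if_pos h0, List.flatMap_append, flat_last, flat_zero, List.append_assoc,
      ← List.replicate_add]
    rw [h0] at hg ⊢
    rw [Nat.mul_zero, List.replicate_zero, List.nil_append]
    congr 2
    rw [Nat.mul_zero, Nat.add_zero] at hg
    rw [hg]
    ring
  · rw [if_neg h0, List.flatMap_cons, flat_last]
    rw [ff_mid p z o κ h0]
    simp only [List.append_assoc]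
    congr 2
    rw [← List.replicate_add, ← List.replicate_add]
    congr 1
    have h1 : p.H * (p.k - κ.val) + p.H * κ.val = p.H * p.k := by
      rw [← Nat.mul_add]
      congr 1
      omega
    have h2 : p.H * p.k * (mu p κ τ + 1) = mu p κ τ * (p.H * p.k) + p.H * p.k := by ring
    show p.H * (p.k - κ.val) + (mu p (κ, τ).1 (κ, τ).2 * (p.H * p.k) + e) = gl p τ
    show p.H * (p.k - κ.val) + (mu p κ τ * (p.H * p.k) + e) = gl p τ
    omega

theorem flat_phi_other (p : Prm) {B : Type} (z o : B) (κ : Fin p.k) (τ : Ty) (hτ : τ ≠ Ty.M) :
    (phi p (κ, τ)).flatMap (ff p z o) ++ List.replicate (p.H * κ.val) o =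
      List.replicate (p.H * κ.val) o ++ G p z o τ := by
  apply flat_phi
  cases τ with
  | T b => rfl
  | V b => rfl
  | M => exact absurd rfl hτ

theorem flat_phi_M (p : Prm) {B : Type} (z o : B) (κ : Fin p.k) :
    (phi p (κ, Ty.M)).flatMap (ff p z o) ++ List.replicate (p.H * ((κ.val + 1) % p.k)) o =
      List.replicate (p.H * κ.val) o ++ G p z o Ty.M := by
  have hκ2 := κ.2
  apply flat_phi
  show 3 * (p.H * p.k) + p.H + p.H * κ.val =
    p.H * p.k * ((if κ.val + 1 = p.k then 3 else 2) + 1) + p.H * ((κ.val + 1) % p.k)
  split_ifs with h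
  · rw [h, Nat.mod_self]
    have h1 : p.H * p.k = p.H * κ.val + p.H := by
      have := congrArg (fun t => p.H * t) h
      simp only [Nat.mul_add, Nat.mul_one] at this
      exact this.symm
    have h2 : p.H * p.k * (3 + 1) = 3 * (p.H * p.k) + p.H * p.k := by ring
    omega
  · rw [Nat.mod_eq_of_lt (by omega)]
    ring

end Pool.Agent.H38.Ace.Low
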