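import Pool.Agent.H38.Ace.LowIm
import Pool.Agent.H38.Ace.BaseWord

/-!
# The lower bound
-/

set_option autoImplicit false

open scoped ENNReal NNReal

namespace Pool.Agent.H38.Ace.Low

variable {p : Prm}

/-- the word `XX` occurs in the image -/
theorem XX_occurs {B : Type} [Nonempty B] (z o : B) (N : ℕ) :
    ∃ s, ∀ i < (XX p z o N ((2 * p.k - 1) * DD p N + (N + 1))).length,
      (XX p z o N ((2 * p.k - 1) * DD p N + (N + 1)))[i]? =
        some (image (ff p z o) (WW p) (s + i)) := by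
  have hk := p.hk
  have hD := DD_eq (p := p) N
  have hL := Λ_mul (p := p) N
  have h1 := rel (p := p) z o (ZZ p N) ((2 * p.k - 1) * DD p N + (N + 1))
  have h2 : At p (ZZ p N + ((2 * p.k - 1) * DD p N + (N + 1))) N (2 * p.k - 1) (N + 1) :=
    ⟨by omega, by omega, by omega⟩
  have h3 : (kap p (ZZ p N + ((2 * p.k - 1) * DD p N + (N + 1)))).val = 0 := by
    unfold kap
    rw [h2.Y_eq]
    show (2 * p.k - 1 + 1) % p.k = 0
    rw [show 2 * p.k - 1 + 1 = p.k * 2 by omega, Nat.mul_mod_right]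
  rw [h3, Nat.mul_zero, List.replicate_zero, List.append_nil,
    Mor.flat (phi_length_pos p)] at h1
  change (fac (WW p) _ _).flatMap (ff p z o) = _ at h1
  rw [Mor.flat (ff_length_pos p z o)] at h1
  change _ = _ ++ XX p z o N ((2 * p.k - 1) * DD p N + (N + 1)) at h1
  generalize XX p z o N ((2 * p.k - 1) * DD p N + (N + 1)) = X at h1 ⊢
  generalize pos (ff p z o) (WW p) _ = s0 at h1
  generalize p.H * (kap p (ZZ p N)).val = h at h1
  refine ⟨s0 + h, fun i hi => ?_⟩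
  have h4 := congrArg (fun l : List B => l[h + i]?) h1
  have h5 := congrArg List.length h1
  rw [List.length_append, List.length_replicate, fac_length] at h5
  rw [List.getElem?_append_right (by rw [List.length_replicate]; omega),
    List.length_replicate, Nat.add_sub_cancel_left, fac_getElem? _ _ _ _ (by omega)] at h4
  rw [← h4, Nat.add_assoc]

theorem image_ace_ge {B : Type} [Nonempty B] (z o : B) {R : ℕ} (hg : Good p R) :
    ((2 * p.k * R - 1 : ℕ) : ℝ≥0∞) / (R : ℝ≥0∞) ≤ ACE (image (ff p z o) (WW p)) := by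
  have hk := p.hk
  have hR := hg.hR
  refine Filter.le_limsup_of_frequently_le ?_
  rw [Filter.frequently_atTop]
  intro N
  have hD := DD_eq (p := p) N
  have hL := Λ_mul (p := p) N
  obtain ⟨s, hs⟩ := XX_occurs (p := p) z o N
  have hlen := XX_len_mul (p := p) z o N (2 * p.k - 1) le_rfl
  have hper : ∀ i, i + (XX p z o N (DD p N)).length <
      (XX p z o N ((2 * p.k - 1) * DD p N + (N + 1))).length →
      image (ff p z o) (WW p) (s + (i + (XX p z o N (DD p N)).length)) =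
        image (ff p z o) (WW p) (s + i) := by
    intro i hi
    have e1 : (2 * p.k - 1) * DD p N + (N + 1) =
        DD p N + ((2 * p.k - 2) * DD p N + (N + 1)) := by
      rw [show 2 * p.k - 1 = (2 * p.k - 2) + 1 by omega, Nat.add_mul]
      omega
    have e2 : (XX p z o N ((2 * p.k - 1) * DD p N + (N + 1))).length =
        (XX p z o N (DD p N)).length +
          (XX p z o N ((2 * p.k - 2) * DD p N + (N + 1))).length := by
      rw [e1, XX_add z o N _ (by omega), List.length_append]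
    have h3 := XX_per (p := p) z o N ((2 * p.k - 2) * DD p N + (N + 1)) i (by omega) (by omega)
    rw [← e1, hs _ hi, hs _ (by omega)] at h3
    exact Option.some.inj h3
  have hbd := XX_len_bound z o hg N
  have hu0 : N < (XX p z o N (DD p N)).length := by
    have e := XX_length (p := p) z o N (DD p N)
    have e2 := Mor.le_pos_add (f := G p z o) (tau p) (ZZ p N) (DD p N) 1
      (fun i _ => G_length_pos z o _)
    omega
  generalize (XX p z o N (DD p N)).length = u at hlen hper hbd hu0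
  generalize (XX p z o N (N + 1)).length = v at hlen hbd
  generalize (XX p z o N ((2 * p.k - 1) * DD p N + (N + 1))).length = M at hlen hper hs
  have huM : u ≤ M := by
    have : 1 * u ≤ (2 * p.k - 1) * u := Nat.mul_le_mul_right _ (by omega)
    omega
  refine ⟨M, by omega, ?_⟩
  have h3 := expo_le_iSup _ _ _ _
    (isPower_of_per (image (ff p z o) (WW p)) s M u (by omega) hper huM)
  rw [fac_length] at h3
  refine le_trans ?_ h3
  have hfin : (2 * p.k * R - 1) * u ≤ M * R := by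
    have e1 : R * M = R * ((2 * p.k - 1) * u) + R * v := by rw [hlen, Nat.mul_add]
    have e2 : (2 * p.k * R - 1) * u + u = 2 * p.k * R * u := by
      have : 1 ≤ 2 * p.k * R := Nat.mul_pos (by omega) hR
      calc (2 * p.k * R - 1) * u + u = (2 * p.k * R - 1 + 1) * u := by ring
        _ = _ := by rw [Nat.sub_add_cancel this]
    have e3 : R * ((2 * p.k - 1) * u) + R * u = 2 * p.k * R * u := by
      calc R * ((2 * p.k - 1) * u) + R * u = (2 * p.k - 1 + 1) * R * u := by ring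
        _ = _ := by rw [Nat.sub_add_cancel (by omega)]
    rw [Nat.mul_comm M R]
    omega
  rw [ENNReal.le_div_iff_mul_le (Or.inl (by exact_mod_cast (show u ≠ 0 by omega)))
    (Or.inl (ENNReal.natCast_ne_top _))]
  rw [mul_comm, ← mul_div_assoc]
  apply ENNReal.div_le_of_le_mul
  rw [mul_comm]
  exact_mod_cast hfin

theorem ace_le_of_bound {A : Type} (w : ℕ → A) (R C : ℕ) (hR : 0 < R)
    (h : ∀ s q0 q, 0 < q0 → (∀ i < q, w (s + i) = w (s + q0 + i)) → R * q ≤ q0 + C) :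
    ACE w ≤ ((R + 2 : ℕ) : ℝ≥0∞) / (R : ℝ≥0∞) := by
  refine Filter.limsup_le_of_le (h := ?_)
  rw [Filter.eventually_atTop]
  refine ⟨(R + 2) * C + 1, fun m hm => iSup_le fun n => iSup₂_le fun v hv => ?_⟩
  rw [fac_length]
  apply ENNReal.div_le_of_le_mul
  have hv0 : 0 < v.length := List.length_pos_iff.2 hv.1
  have hget : ∀ i < m, some (w (n + i)) = v[i % v.length]? := by
    intro i hi
    rw [← fac_getElem? w n m i hi]
    exact hv.2 i (by rw [fac_length]; exact hi)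
  have hper : ∀ i < m - v.length, w (n + i) = w (n + v.length + i) := by
    intro i hi
    apply Option.some.inj
    rw [show n + v.length + i = n + (i + v.length) by omega, hget i (by omega),
      hget (i + v.length) (by omega), Nat.add_mod_right]
  have hkey : R * m ≤ (R + 2) * v.length := by
    have h1 := h n v.length (m - v.length) hv0 hper
    rcases Nat.lt_or_ge m v.length with h2 | h2
    · have h3 : R * m ≤ R * v.length := Nat.mul_le_mul_left _ h2.le
      rw [Nat.add_mul]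
      omega
    · obtain ⟨q, rfl⟩ := Nat.exists_eq_add_of_le h2
      rw [Nat.add_sub_cancel_left] at h1
      rw [Nat.mul_add, Nat.add_mul]
      by_cases h3 : C ≤ v.length
      · omega
      · exfalso
        have h4 : q ≤ R * q := Nat.le_mul_of_pos_left _ hR
        rw [Nat.add_mul] at hm
        have h5 : C ≤ R * C := Nat.le_mul_of_pos_left _ hR
        omega
  have h6 : ((R : ℝ≥0∞)) ≠ 0 := by exact_mod_cast hR.ne'
  have h7 : ((R : ℝ≥0∞)) ≠ ⊤ := ENNReal.natCast_ne_top _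
  rw [mul_comm, ← mul_div_assoc, ENNReal.le_div_iff_mul_le (Or.inl h6) (Or.inl h7)]
  rw [mul_comm, mul_comm (v.length : ℝ≥0∞)]
  exact_mod_cast hkey

theorem word_ace_le {R : ℕ} (hg : Good p R) :
    ACE (WW p) ≤ ((R + 2 : ℕ) : ℝ≥0∞) / (R : ℝ≥0∞) :=
  ace_le_of_bound (WW p) R (C0 p R) hg.hR fun s q0 q hq0 hm => word_bound hg s q0 q hq0 hm

theorem S_ge_aux (B : Type) [Nonempty B] [Nontrivial B] {R : ℕ} (hg : Good p R) :
    ((2 * p.k * R - 1 : ℕ) : ℝ≥0∞) ≤ S B (p.k + 1) * ((R + 2 : ℕ) : ℝ≥0∞) := by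
  obtain ⟨z, o, hzo⟩ := exists_pair_ne B
  have hR := hg.hR
  have hR0 : ((R : ℝ≥0∞)) ≠ 0 := by exact_mod_cast hR.ne'
  have hRt : ((R : ℝ≥0∞)) ≠ ⊤ := ENNReal.natCast_ne_top _
  have h1 := image_ace_ge z o hg
  have h2 := word_ace_le hg
  have h3 : ACE (WW p) ≠ ⊤ := by
    refine ne_top_of_le_ne_top ?_ h2
    exact ENNReal.div_ne_top (ENNReal.natCast_ne_top _) hR0
  have h4 : ACE (image (ff p z o) (WW p)) ≤ ACEinj B (WW p) := by
    unfold ACEinj
    exact le_iSup₂ (f := fun (f : Fin (p.k + 1) → List B) (_ : InjMorphism f) =>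
      ACE (image f (WW p))) (ff p z o) (ff_injMorphism p hzo)
  have h5 : ACEinj B (WW p) / ACE (WW p) ≤ S B (p.k + 1) := by
    unfold S
    exact le_iSup₂ (f := fun (w : ℕ → Fin (p.k + 1)) (_ : ACE w ≠ ⊤) => ACEinj B w / ACE w)
      (WW p) h3
  have h6 : ACE (WW p) ≠ 0 := by
    have := one_le_ACE (WW p)
    intro h0
    rw [h0] at this
    simp at this
  rw [ENNReal.div_le_iff h6 h3] at h5
  have h7 : ((2 * p.k * R - 1 : ℕ) : ℝ≥0∞) / (R : ℝ≥0∞) ≤
      S B (p.k + 1) * (((R + 2 : ℕ) : ℝ≥0∞) / (R : ℝ≥0∞)) :=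
    calc ((2 * p.k * R - 1 : ℕ) : ℝ≥0∞) / (R : ℝ≥0∞) ≤ ACEinj B (WW p) := h1.trans h4
      _ ≤ S B (p.k + 1) * ACE (WW p) := h5
      _ ≤ S B (p.k + 1) * (((R + 2 : ℕ) : ℝ≥0∞) / (R : ℝ≥0∞)) := mul_le_mul_right h2 _
  rw [← mul_div_assoc, ENNReal.div_le_iff hR0 hRt, ENNReal.div_mul_cancel hR0 hRt] at h7
  exact h7

/-- the parameters -/
theorem exists_prm (k R : ℕ) (hk : 0 < k) (hR : 0 < R) : ∃ p : Prm, p.k = k ∧ Good p R := by
  obtain ⟨Q, hQ⟩ : ∃ Q, Q = 6 * R * k + 6 := ⟨_, rfl⟩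
  have hQ0 : 6 ≤ Q := by rw [hQ]; omega
  have hQ2 : 36 ≤ Q ^ 2 := by
    calc 36 = 6 ^ 2 := by norm_num
      _ ≤ Q ^ 2 := Nat.pow_le_pow_left hQ0 2
  have hQ1 : 0 < Q ^ 2 := by omega
  obtain ⟨m0, x, hx⟩ := BaseWord.exists_word
    (12 * R * (Q ^ 2 + Q ^ 2 + 2) * (1 + 2 * k * (Q + 2))) (by positivity)
  let p : Prm :=
    { k := k, Λ := Q, P := Q ^ 2, J := Q ^ 2, H := Q ^ 2, x := x, m0 := m0,
      ρ := 12 * R * (Q ^ 2 + Q ^ 2 + 2) * (1 + 2 * k * (Q + 2)),
      hk := hk, hΛ := by omega, hP := by omega, hJ := hQ1, hH := hQ1,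
      hρ := by positivity, hx := fun q i hq => hx q i hq }
  have hRQ : 6 * R * k ≤ Q := by omega
  have hRQ' : 6 * R ≤ Q := by
    calc 6 * R = 6 * R * 1 := by ring
      _ ≤ 6 * R * k := Nat.mul_le_mul_left _ hk
      _ ≤ Q := hRQ
  refine ⟨p, rfl, hR, ?_, ?_, ?_⟩
  · intro N
    show 2 * R * ((k - 1) * ((N + 1) * (Q ^ 2 + 2) + Q * (N + 1) * 2 + 4) +
        (N + 1) * (Q ^ 2 + Q ^ 2 + 2)) ≤ Q * (N + 1) * (Q ^ 2 + 1)
    have h1 : (N + 1) * (Q ^ 2 + 2) + Q * (N + 1) * 2 + 4 ≤ (N + 1) * (2 * Q ^ 2) := by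
      have h4 : 6 * Q ≤ Q ^ 2 := by
        rw [pow_two]
        exact Nat.mul_le_mul_right _ hQ0
      calc (N + 1) * (Q ^ 2 + 2) + Q * (N + 1) * 2 + 4 ≤
          (N + 1) * (Q ^ 2 + 2) + Q * (N + 1) * 2 + (N + 1) * 4 := by omega
        _ = (N + 1) * (Q ^ 2 + 2 + 2 * Q + 4) := by ring
        _ ≤ (N + 1) * (2 * Q ^ 2) := Nat.mul_le_mul_left _ (by omega)
    have h2 : (N + 1) * (Q ^ 2 + Q ^ 2 + 2) ≤ (N + 1) * (3 * Q ^ 2) := by
      apply Nat.mul_le_mul_left
      omega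
    have h3 : 2 * (k - 1) + 3 ≤ 3 * k := by omega
    calc 2 * R * ((k - 1) * ((N + 1) * (Q ^ 2 + 2) + Q * (N + 1) * 2 + 4) +
        (N + 1) * (Q ^ 2 + Q ^ 2 + 2)) ≤
        2 * R * ((k - 1) * ((N + 1) * (2 * Q ^ 2)) + (N + 1) * (3 * Q ^ 2)) := by
          apply Nat.mul_le_mul_left
          exact Nat.add_le_add (Nat.mul_le_mul_left _ h1) h2
      _ = 2 * R * (2 * (k - 1) + 3) * ((N + 1) * Q ^ 2) := by ring
      _ ≤ 2 * R * (3 * k) * ((N + 1) * Q ^ 2) :=
          Nat.mul_le_mul_right _ (Nat.mul_le_mul_left _ h3)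
      _ = 6 * R * k * ((N + 1) * Q ^ 2) := by ring
      _ ≤ Q * ((N + 1) * Q ^ 2) := Nat.mul_le_mul_right _ hRQ
      _ = Q * (N + 1) * Q ^ 2 := by ring
      _ ≤ Q * (N + 1) * (Q ^ 2 + 1) := Nat.mul_le_mul_left _ (by omega)
  · exact le_rfl
  · intro N
    show R * (Q * (N + 1) * (Q ^ 2 + 2 * (Q ^ 2 * k)) + (Q ^ 2 + 3 * (Q ^ 2 * k) + Q ^ 2)) ≤
      (N + 1) * (Q ^ 2 + Q ^ 2 * k * (Q ^ 2 + 1))
    have hk1 : Q ^ 2 ≤ Q ^ 2 * k := Nat.le_mul_of_pos_right _ hk
    obtain ⟨K, hK⟩ : ∃ K, K = Q ^ 2 * k := ⟨_, rfl⟩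
    rw [← hK] at hk1 ⊢
    have h1 : Q * (N + 1) * (Q ^ 2 + 2 * K) ≤ Q * (N + 1) * (3 * K) :=
      Nat.mul_le_mul_left _ (by omega)
    have h2 : Q ^ 2 + 3 * K + Q ^ 2 ≤ Q * (N + 1) * K := by
      calc Q ^ 2 + 3 * K + Q ^ 2 ≤ 6 * K := by omega
        _ ≤ Q * K := Nat.mul_le_mul_right _ hQ0
        _ = Q * 1 * K := by ring
        _ ≤ Q * (N + 1) * K := Nat.mul_le_mul_right _ (Nat.mul_le_mul_left _ (by omega))
    calc R * (Q * (N + 1) * (Q ^ 2 + 2 * K) + (Q ^ 2 + 3 * K + Q ^ 2)) ≤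
        R * (Q * (N + 1) * (3 * K) + Q * (N + 1) * K) :=
          Nat.mul_le_mul_left _ (Nat.add_le_add h1 h2)
      _ = 4 * R * (Q * (N + 1) * K) := by ring
      _ ≤ Q * (Q * (N + 1) * K) := Nat.mul_le_mul_right _ (by omega)
      _ = (N + 1) * (K * Q ^ 2) := by ring
      _ ≤ (N + 1) * (Q ^ 2 + K * (Q ^ 2 + 1)) := by
          apply Nat.mul_le_mul_left
          rw [Nat.mul_add]
          omega

theorem S_ge2 (B : Type) [Nonempty B] [Nontrivial B] (k : ℕ) (hk : 0 < k) :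
    ((2 * k : ℕ) : ℝ≥0∞) ≤ S B (k + 1) := by
  by_contra hcon
  push Not at hcon
  have htop : S B (k + 1) ≠ ⊤ := ne_top_of_lt hcon
  have hreal : ∀ R : ℕ, 0 < R → (2 * k : ℝ) * R - 1 ≤ (S B (k + 1)).toReal * (R + 2) := by
    intro R hR
    obtain ⟨p, hpk, hg⟩ := exists_prm k R hk hR
    have h1 := S_ge_aux B hg
    rw [hpk] at h1
    have h2 := ENNReal.toReal_mono (ENNReal.mul_ne_top htop (ENNReal.natCast_ne_top _)) h1
    rw [ENNReal.toReal_mul, ENNReal.toReal_natCast, ENNReal.toReal_natCast] at h2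
    have h3 : 1 ≤ 2 * k * R := Nat.mul_pos (by omega) hR
    rw [Nat.cast_sub h3] at h2
    push_cast at h2
    exact h2
  have hlt : (S B (k + 1)).toReal < 2 * k := by
    have := (ENNReal.toReal_lt_toReal htop (ENNReal.natCast_ne_top (2 * k))).2 hcon
    rw [ENNReal.toReal_natCast] at this
    push_cast at this
    exact this
  set σ := (S B (k + 1)).toReal with hσ
  obtain ⟨R, hR⟩ := exists_nat_gt ((1 + 2 * σ) / (2 * k - σ))
  have h1 := hreal (max R 1) (by omega)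
  have h2 : ((1 + 2 * σ) / (2 * k - σ)) < ((max R 1 : ℕ) : ℝ) :=
    lt_of_lt_of_le hR (by exact_mod_cast le_max_left _ _)
  rw [div_lt_iff₀ (by linarith)] at h2
  nlinarith

end Pool.Agent.H38.Ace.Low
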