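import Pool.Agent.H38.Ace.Sharp

/-!
# The sharp upper bound for the asymptotic critical exponent of the image
-/

set_option autoImplicit false

open scoped ENNReal NNReal

namespace Pool.Agent.H38.Ace

variable {A B : Type}

/-- eventual bounds for powers, from a bound of the asymptotic critical exponent -/
theorem eventually_power_lt (w : ℕ → A) (K : ℕ) (hK : ACE w < K) :
    ∃ m0, ∀ M ≥ m0, ∀ j V, IsPower (fac w j M) V → M < K * V.length := by
  obtain ⟨m0, hm0⟩ := Filter.eventually_atTop.1 (Filter.eventually_lt_of_limsup_lt hK)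
  refine ⟨m0, fun M hM j V hV => ?_⟩
  have h1 := lt_of_le_of_lt (expo_le_iSup w j M V hV) (hm0 M hM)
  have hV0 : (V.length : ℝ≥0∞) ≠ 0 := by
    have := List.length_pos_iff.2 hV.1
    exact_mod_cast this.ne'
  rw [ENNReal.div_lt_iff (Or.inl hV0) (Or.inl (ENNReal.natCast_ne_top _))] at h1
  exact_mod_cast h1

theorem isPower_of_per (y : ℕ → B) (j N d : ℕ) (hd : 0 < d)
    (hper : ∀ i, i + d < N → y (j + (i + d)) = y (j + i)) (hdN : d ≤ N) :
    IsPower (fac y j N) (fac y j d) := by
  refine ⟨?_, ?_⟩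
  · intro h0
    have := congrArg List.length h0
    rw [fac_length] at this
    simp at this
    omega
  · intro i hi
    rw [fac_length] at hi ⊢
    have hm := Nat.mod_lt i hd
    rw [fac_getElem? _ _ _ _ hi, fac_getElem? _ _ _ _ hm]
    have := per_region (T := fun i => y (j + i)) hd hper i hi
    exact congrArg some this

/-- the letters of the image are finitely many -/
theorem digits [Nonempty B] [Finite A] {f : A → List B} (h : InjMorphism f) (w : ℕ → A) :
    ∃ (b : ℕ) (g : ℕ → ℕ), (∀ i, g i < b) ∧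
      (∀ i j, g i = g j → image f w i = image f w j) ∧
      (∀ i j, image f w i = image f w j → g i = g j) := by
  classical
  have hfin : (Set.range (image f w)).Finite := by
    refine Set.Finite.subset (s := ⋃ a : A, {b | b ∈ f a}) ?_ ?_
    · exact Set.finite_iUnion fun a => List.finite_toSet (f a)
    · rintro _ ⟨i, rfl⟩
      obtain ⟨j, hj1, hj2⟩ := exists_block h w i
      rw [Set.mem_iUnion]
      refine ⟨w j, ?_⟩
      have h1 := block h w j
      have h2 : (f (w j))[i - pos f w j]? = some (image f w i) := by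
        rw [h1, fac_getElem? _ _ _ _ (by omega)]
        congr 2
        omega
      exact List.mem_of_getElem? h2
  have := hfin.fintype
  obtain ⟨e⟩ := Fintype.truncEquivFin (Set.range (image f w))
  refine ⟨Fintype.card (Set.range (image f w)),
    fun i => (e ⟨image f w i, Set.mem_range_self i⟩ : ℕ), fun i => (e _).2, ?_, ?_⟩
  · intro i j hij
    have h1 := e.injective (Fin.ext hij)
    exact congrArg Subtype.val h1
  · intro i j hij
    simp only [hij]

/-- the sharp upper bound -/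
theorem ace_image_le2 [Nonempty B] [Fintype A] {f : A → List B} (h : InjMorphism f) (w : ℕ → A)
    (K : ℕ) (hK : ACE w < K) :
    ACE (image f w) ≤ (((Fintype.card A - 1) * K : ℕ) : ℝ≥0∞) := by
  classical
  have hK0 : 0 < K := by
    rcases Nat.eq_zero_or_pos K with h0 | h0
    · subst h0
      simp at hK
    · exact h0
  obtain ⟨m0, hw⟩ := eventually_power_lt w K hK
  have hy0 : ACE (image f w) < ((Fintype.card A * K + 2 : ℕ) : ℝ≥0∞) := by
    refine lt_of_le_of_lt (ace_image_le h w K hK) ?_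
    exact_mod_cast (show Fintype.card A * K + 1 < Fintype.card A * K + 2 by omega)
  set K1 := Fintype.card A * K + 2 with hK1
  obtain ⟨m1, hy⟩ := eventually_power_lt (image f w) K1 hy0
  obtain ⟨b, g, hgb, hg, hg'⟩ := digits h w
  let L := Finset.univ.sup (fun a => (f a).length)
  have hL : ∀ a, (f a).length ≤ L := fun a =>
    Finset.le_sup (f := fun a => (f a).length) (Finset.mem_univ a)
  set N0 := max m1 (K1 * (2 * L)) + 2 * L + 1 with hN0d
  have hN0 : ∀ j d, 0 < d → d ≤ 2 * L →
      ∃ i, i + d < N0 ∧ image f w (j + (i + d)) ≠ image f w (j + i) := by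
    intro j d hd hdL
    by_contra hcon
    push Not at hcon
    have h1 := isPower_of_per (image f w) j N0 d hd hcon (by omega)
    have h2 := hy N0 (by have := le_max_left m1 (K1 * (2 * L)); omega) j _ h1
    rw [fac_length] at h2
    have h3 : K1 * d ≤ K1 * (2 * L) := Nat.mul_le_mul_left _ hdL
    have h4 := le_max_right m1 (K1 * (2 * L))
    omega
  set c1 := (L + 4 * L * (b ^ N0 + 1)) + N0 + 2 * L with hc1
  have key : ∀ s l q, (∀ i, i + q < l → image f w (s + (i + q)) = image f w (s + i)) →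
      c1 < q → m0 * L ≤ q → l < (Fintype.card A - 1) * K * q + c1 := by
    intro s l q hper h1 h2
    by_contra hcon
    push Not at hcon
    exact bound2 h hL w K m0 hK0 hw N0 hN0 b g hgb hg hg' s l q hper h1 h2 hcon
  apply ENNReal.le_of_forall_pos_le_add
  intro ε hε _
  set q0 := max (c1 + 1) (max (m0 * L) ⌈(c1 : ℝ≥0) / ε⌉₊) with hq0
  have h1 : c1 + 1 ≤ q0 := le_max_left _ _
  have h2 : m0 * L ≤ q0 := (le_max_left _ _).trans (le_max_right _ _)
  have h3 : (c1 : ℝ≥0) ≤ ε * q0 := by
    have h4 : (c1 : ℝ≥0) / ε ≤ q0 := by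
      refine (Nat.le_ceil _).trans ?_
      have h5 : ⌈(c1 : ℝ≥0) / ε⌉₊ ≤ q0 := (le_max_right _ _).trans (le_max_right (c1 + 1) _)
      exact Nat.cast_le.2 h5
    rw [div_le_iff₀ hε] at h4
    rw [mul_comm ε]
    exact h4
  refine Filter.limsup_le_of_le (h := ?_)
  rw [Filter.eventually_atTop]
  refine ⟨max m1 (K1 * q0), fun m hm => iSup_le fun s => iSup₂_le fun v hv => ?_⟩
  rw [fac_length]
  have hv0 : 0 < v.length := List.length_pos_iff.2 hv.1
  have hget : ∀ i < m, some (image f w (s + i)) = v[i % v.length]? := by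
    intro i hi
    rw [← fac_getElem? (image f w) s m i hi]
    exact hv.2 i (by rw [fac_length]; exact hi)
  have hper : ∀ i, i + v.length < m → image f w (s + (i + v.length)) = image f w (s + i) := by
    intro i hi
    apply Option.some.inj
    rw [hget _ hi, hget i (by omega), Nat.add_mod_right]
  have hmv := hy m ((le_max_left _ _).trans hm) s v hv
  have hq : q0 ≤ v.length := by
    have h4 : K1 * q0 ≤ m := (le_max_right _ _).trans hm
    have h5 : K1 * q0 < K1 * v.length := lt_of_le_of_lt h4 hmv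
    exact (Nat.lt_of_mul_lt_mul_left h5).le
  have h6 := key s m v.length hper (by omega) (by omega)
  apply ENNReal.div_le_of_le_mul
  have h7 : (m : ℝ≥0) ≤ (((Fintype.card A - 1) * K : ℕ) + ε) * (v.length : ℝ≥0) := by
    have h8 : (m : ℝ≥0) ≤ (((Fintype.card A - 1) * K : ℕ) : ℝ≥0) * (v.length : ℝ≥0) + c1 := by
      exact_mod_cast h6.le
    have h9 : ε * (q0 : ℝ≥0) ≤ ε * (v.length : ℝ≥0) :=
      mul_le_mul_of_nonneg_left (by exact_mod_cast hq) zero_le
    calc (m : ℝ≥0) ≤ (((Fintype.card A - 1) * K : ℕ) : ℝ≥0) * (v.length : ℝ≥0) + c1 := h8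
      _ ≤ (((Fintype.card A - 1) * K : ℕ) : ℝ≥0) * (v.length : ℝ≥0) +
          ε * (v.length : ℝ≥0) := add_le_add le_rfl (h3.trans h9)
      _ = (((Fintype.card A - 1) * K : ℕ) + ε) * (v.length : ℝ≥0) := by ring
  have h8 : ((m : ℝ≥0) : ℝ≥0∞) ≤
      (((((Fintype.card A - 1) * K : ℕ) + ε) * (v.length : ℝ≥0) : ℝ≥0) : ℝ≥0∞) :=
    ENNReal.coe_le_coe.2 h7
  rw [ENNReal.coe_mul, ENNReal.coe_add] at h8
  exact_mod_cast h8

theorem one_le_ACE (w : ℕ → A) : 1 ≤ ACE w := by
  refine Filter.le_limsup_of_frequently_le ?_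
  apply Filter.Eventually.frequently
  rw [Filter.eventually_atTop]
  refine ⟨1, fun m hm => ?_⟩
  have h1 : IsPower (fac w 0 m) (fac w 0 m) := by
    refine ⟨?_, ?_⟩
    · intro h0
      have := congrArg List.length h0
      rw [fac_length] at this
      simp at this
      omega
    · intro i hi
      rw [Nat.mod_eq_of_lt hi]
  have h2 := expo_le_iSup w 0 m _ h1
  rw [fac_length, ENNReal.div_self (by exact_mod_cast (show m ≠ 0 by omega))
    (ENNReal.natCast_ne_top _)] at h2
  exact h2

/-- the sharp upper bound, with the integer part of the asymptotic critical exponent -/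
theorem ace_image_le_floor [Nonempty B] [Fintype A] {f : A → List B} (h : InjMorphism f)
    (w : ℕ → A) (hw : ACE w ≠ ⊤) :
    ACE (image f w) ≤ (((Fintype.card A - 1) * (⌊(ACE w).toReal⌋₊ + 1) : ℕ) : ℝ≥0∞) := by
  apply ace_image_le2 h
  rw [← ENNReal.ofReal_toReal hw, ← ENNReal.ofReal_natCast]
  rw [ENNReal.ofReal_toReal hw]
  conv_lhs => rw [← ENNReal.ofReal_toReal hw]
  apply (ENNReal.ofReal_lt_ofReal_iff (by positivity)).2
  push_cast
  exact Nat.lt_floor_add_one _

theorem S_le2 [Nonempty B] (n : ℕ) : S B n ≤ ((2 * (n - 1) : ℕ) : ℝ≥0∞) := by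
  unfold S
  refine iSup₂_le fun w hw => ?_
  apply ENNReal.div_le_of_le_mul
  unfold ACEinj
  refine iSup₂_le fun f hf => ?_
  have h0 := ace_image_le_floor hf w hw
  rw [Fintype.card_fin] at h0
  have h1 := one_le_ACE w
  have h2 : ((⌊(ACE w).toReal⌋₊ + 1 : ℕ) : ℝ≥0∞) ≤ 2 * ACE w := by
    have h3 : ((⌊(ACE w).toReal⌋₊ : ℕ) : ℝ≥0∞) ≤ ACE w := by
      conv_rhs => rw [← ENNReal.ofReal_toReal hw]
      rw [← ENNReal.ofReal_natCast]
      exact ENNReal.ofReal_le_ofReal (Nat.floor_le ENNReal.toReal_nonneg)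
    push_cast
    rw [two_mul]
    exact add_le_add h3 h1
  calc ACE (image f w) ≤ (((n - 1) * (⌊(ACE w).toReal⌋₊ + 1) : ℕ) : ℝ≥0∞) := h0
    _ = ((n - 1 : ℕ) : ℝ≥0∞) * ((⌊(ACE w).toReal⌋₊ + 1 : ℕ) : ℝ≥0∞) := by rw [Nat.cast_mul]
    _ ≤ ((n - 1 : ℕ) : ℝ≥0∞) * (2 * ACE w) := mul_le_mul_right h2 _
    _ = ((2 * (n - 1) : ℕ) : ℝ≥0∞) * ACE w := by rw [Nat.cast_mul]; push_cast; ring

end Pool.Agent.H38.Ace
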