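import Pool.Agent.H38.Ace.LowLen
import Pool.Agent.H38.Ace.Sharp2

/-!
# The lower bound: the repetitions of the image
-/

set_option autoImplicit false

open scoped ENNReal

namespace Pool.Agent.H38.Ace.Low

variable {p : Prm}

/-- the types of the word of syllables -/
noncomputable def tau (p : Prm) (t : ℕ) : Ty := (Y p t).2

/-- the classes of the word of syllables -/
noncomputable def kap (p : Prm) (t : ℕ) : Fin p.k := (Y p t).1

theorem kap_succ_other {t : ℕ} (h : tau p t ≠ Ty.M) : kap p (t + 1) = kap p t := by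
  obtain ⟨N, j, o, h1⟩ := exists_at (p := p) t
  have h2 : o + 1 < DD p N := by
    by_contra hc
    apply h
    unfold tau
    rw [h1.Y_eq]
    exact ty_M (by have := h1.ho; omega)
  unfold kap
  rw [h1.Y_eq, (h1.add (i := 1) h2).Y_eq]

theorem kap_succ_M {t : ℕ} (h : tau p t = Ty.M) :
    (kap p (t + 1)).val = ((kap p t).val + 1) % p.k := by
  have hk := p.hk
  obtain ⟨N, j, o, h1⟩ := exists_at (p := p) t
  unfold tau at h
  rw [h1.Y_eq] at h
  have h2 : o + 1 = DD p N := (ty_eq_M_iff h1.ho).1 h
  unfold kap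
  rw [h1.Y_eq]
  by_cases hj : j + 1 < 2 * p.k
  · have h3 : At p (t + 1) N (j + 1) 0 := by
      refine ⟨hj, DD_pos p N, ?_⟩
      rw [h1.ht, Nat.add_mul]
      omega
    rw [h3.Y_eq]
    show (j + 1 + 1) % p.k = ((j + 1) % p.k + 1) % p.k
    rw [Nat.mod_add_mod]
  · have h3 : At p (t + 1) (N + 1) 0 0 := by
      refine ⟨by omega, DD_pos p _, ?_⟩
      have h4 := h1.hj
      have h5 : 2 * p.k = j + 1 := by omega
      rw [h1.ht, ZZ_succ, h5, Nat.add_mul]
      omega
    rw [h3.Y_eq]
    show (0 + 1) % p.k = ((j + 1) % p.k + 1) % p.k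
    have h4 := h1.hj
    rw [show j + 1 = p.k * 2 by omega, Nat.mul_mod_right]

/-- the image of a factor of the word of syllables -/
theorem rel {B : Type} (z o : B) (a L : ℕ) :
    ((fac (Y p) a L).flatMap (phi p)).flatMap (ff p z o) ++
        List.replicate (p.H * (kap p (a + L)).val) o =
      List.replicate (p.H * (kap p a).val) o ++ (fac (tau p) a L).flatMap (G p z o) := by
  induction L with
  | zero => simp [fac]
  | succ L ih =>
    have h1 : (phi p (Y p (a + L))).flatMap (ff p z o) ++
        List.replicate (p.H * (kap p (a + (L + 1))).val) o =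
      List.replicate (p.H * (kap p (a + L)).val) o ++ G p z o (tau p (a + L)) := by
      by_cases h : tau p (a + L) = Ty.M
      · rw [← Nat.add_assoc, kap_succ_M h]
        have h2 := flat_phi_M p z o (kap p (a + L))
        rw [h]
        have h3 : Y p (a + L) = (kap p (a + L), Ty.M) := Prod.ext rfl h
        rw [h3]
        exact h2
      · rw [← Nat.add_assoc, kap_succ_other h]
        exact flat_phi_other p z o (kap p (a + L)) (tau p (a + L)) h
    rw [fac_succ, fac_succ, List.flatMap_append, List.flatMap_append, List.flatMap_append,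
      List.append_assoc]
    have e1 : ([Y p (a + L)] : List (Fin p.k × Ty)).flatMap (phi p) = phi p (Y p (a + L)) := by
      simp
    have e2 : ([tau p (a + L)] : List Ty).flatMap (G p z o) = G p z o (tau p (a + L)) := by
      simp
    rw [e1, e2, h1, ← List.append_assoc, ih, List.append_assoc]

theorem at_start {N t : ℕ} (ht : t < (2 * p.k - 1) * DD p N + (N + 1)) :
    ∃ j o, At p (ZZ p N + t) N j o ∧ t = j * DD p N + o ∧ (j + 1 < 2 * p.k ∨ o < N + 1) := by
  have hk := p.hk
  have hD := DD_eq (p := p) N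
  have hlt := Nat.mod_lt t (DD_pos p N)
  have hdm := Nat.div_add_mod t (DD p N)
  rw [Nat.mul_comm] at hdm
  generalize t / DD p N = j at hdm
  generalize t % DD p N = o at hdm hlt
  have hj : j ≤ 2 * p.k - 1 := by
    by_contra hc
    have h1 : (2 * p.k - 1 + 1) * DD p N ≤ j * DD p N := Nat.mul_le_mul_right _ (by omega)
    rw [Nat.add_mul] at h1
    have := Λ_mul (p := p) N
    omega
  refine ⟨j, o, ⟨by omega, hlt, by omega⟩, by omega, ?_⟩
  by_cases h2 : j + 1 < 2 * p.k
  · exact Or.inl h2
  · right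
    have h3 : j = 2 * p.k - 1 := by omega
    rw [h3] at hdm
    omega

/-- the types are periodic in a stage -/
theorem tau_per {N t : ℕ} (ht : t + DD p N < (2 * p.k - 1) * DD p N + (N + 1)) :
    tau p (ZZ p N + DD p N + t) = tau p (ZZ p N + t) := by
  have hk := p.hk
  obtain ⟨j, o, h1, h2, h3⟩ := at_start ht
  have hlt := h1.ho
  have hj1 : 0 < j := by
    by_contra hc
    have : j = 0 := by omega
    subst this
    omega
  obtain ⟨j, rfl⟩ : ∃ j', j = j' + 1 := ⟨j - 1, by omega⟩
  have h4 : At p (ZZ p N + t) N j o := by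
    refine ⟨by have := h1.hj; omega, hlt, ?_⟩
    rw [Nat.add_mul] at h2
    omega
  unfold tau
  rw [show ZZ p N + DD p N + t = ZZ p N + (t + DD p N) by omega, h1.Y_eq, h4.Y_eq]
  show ty p N (j + 1) o = ty p N j o
  rcases h3 with h5 | h5
  · unfold ty
    rw [if_neg (show ¬ (j + 1 + 1 = 2 * p.k) by omega),
      if_neg (show ¬ (j + 1 = 2 * p.k) by omega)]
  · rw [ty_V h5, ty_V h5]

theorem G_length {B : Type} (z o : B) (τ : Ty) : (G p z o τ).length = p.J + gl p τ := by
  simp [G]

theorem G_length_pos {B : Type} (z o : B) (τ : Ty) : 0 < (G p z o τ).length := by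
  rw [G_length]
  have := p.hJ
  omega

/-- the image of a beginning of a stage, up to conjugation -/
noncomputable def XX (p : Prm) {B : Type} (z o : B) (N n : ℕ) : List B :=
  (fac (tau p) (ZZ p N) n).flatMap (G p z o)

theorem XX_length {B : Type} [Nonempty B] (z o : B) (N n : ℕ) :
    pos (G p z o) (tau p) (ZZ p N) + (XX p z o N n).length =
      pos (G p z o) (tau p) (ZZ p N + n) := by
  unfold XX
  rw [Mor.flat (G_length_pos z o), fac_length]
  have := (Mor.pos_strictMono (G_length_pos (p := p) z o) (tau p)).monotone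
    (show ZZ p N ≤ ZZ p N + n by omega)
  omega

/-- the word is periodic -/
theorem XX_add {B : Type} (z o : B) (N n : ℕ)
    (hn : n + DD p N ≤ (2 * p.k - 1) * DD p N + (N + 1)) :
    XX p z o N (DD p N + n) = XX p z o N (DD p N) ++ XX p z o N n := by
  unfold XX
  rw [fac_add, List.flatMap_append]
  congr 2
  apply fac_congr
  intro i hi
  exact tau_per (by omega)

theorem XX_succ {B : Type} (z o : B) (N a b : ℕ) (h : a ≤ b) :
    ∃ r, XX p z o N b = XX p z o N a ++ r := by
  obtain ⟨c, rfl⟩ := Nat.exists_eq_add_of_le h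
  unfold XX
  rw [fac_add, List.flatMap_append]
  exact ⟨_, rfl⟩

theorem XX_per {B : Type} (z o : B) (N n i : ℕ)
    (hn : n + DD p N ≤ (2 * p.k - 1) * DD p N + (N + 1)) (hi : i < (XX p z o N n).length) :
    (XX p z o N (DD p N + n))[i + (XX p z o N (DD p N)).length]? =
      (XX p z o N (DD p N + n))[i]? := by
  obtain ⟨r, hr⟩ := XX_succ (p := p) z o N n (DD p N + n) (by omega)
  conv_rhs => rw [hr, List.getElem?_append_left hi]
  rw [XX_add z o N n hn, List.getElem?_append_right (by omega), Nat.add_sub_cancel]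

theorem XX_len_mul {B : Type} (z o : B) (N j : ℕ) (hj : j ≤ 2 * p.k - 1) :
    (XX p z o N (j * DD p N + (N + 1))).length =
      j * (XX p z o N (DD p N)).length + (XX p z o N (N + 1)).length := by
  induction j with
  | zero => simp
  | succ j ih =>
    have h1 := ih (by omega)
    have h2 : (j + 1) * DD p N ≤ (2 * p.k - 1) * DD p N := Nat.mul_le_mul_right _ hj
    rw [Nat.add_mul] at h2
    rw [show (j + 1) * DD p N + (N + 1) = DD p N + (j * DD p N + (N + 1)) by
      rw [Nat.add_mul]; omega]
    rw [XX_add z o N _ (by omega), List.length_append, h1, Nat.add_mul]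
    omega

theorem gl_T_le (b : Bool) : p.J + gl p (Ty.T b) ≤ p.J + 2 * (p.H * p.k) := by
  cases b
  · simp [gl]
    omega
  · simp [gl]
    omega

theorem gl_V_ge (b : Bool) : p.J + p.H * p.k * (p.P + 1) ≤ p.J + gl p (Ty.V b) := by
  have : p.H * p.k * (p.P + 1) ≤ p.H * p.k * (p.P + b.toNat + 1) :=
    Nat.mul_le_mul_left _ (by omega)
  show p.J + p.H * p.k * (p.P + 1) ≤ p.J + p.H * p.k * (p.P + b.toNat + 1)
  omega

/-- the length of the period and of its beginning -/
theorem XX_len_bound {B : Type} [Nonempty B] (z o : B) {R : ℕ} (hg : Good p R) (N : ℕ) :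
    R * (XX p z o N (DD p N)).length ≤
      R * (XX p z o N (N + 1)).length + (XX p z o N (DD p N)).length := by
  have hk := p.hk
  have hD := DD_eq (p := p) N
  have hL := Λ_mul (p := p) N
  have h0 : At p (ZZ p N) N 0 0 := ⟨by omega, DD_pos p N, by omega⟩
  have h1 := Mor.le_pos_add (f := G p z o) (tau p) (ZZ p N) (N + 1)
    (p.J + p.H * p.k * (p.P + 1))
    (fun i hi => by
      unfold tau
      rw [(h0.add (i := i) (by omega)).Y_eq, Nat.zero_add, G_length]
      show _ ≤ p.J + gl p (ty p N 0 i)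
      rw [ty_V hi]
      exact gl_V_ge _)
  have h2 := Mor.pos_add_le (f := G p z o) (tau p) (ZZ p N + (N + 1)) (p.Λ * (N + 1))
    (p.J + 2 * (p.H * p.k))
    (fun i hi => by
      unfold tau
      rw [((h0.add (i := N + 1) (by omega)).add (i := i) (by omega)).Y_eq, Nat.zero_add,
        G_length]
      show p.J + gl p (ty p N 0 (N + 1 + i)) ≤ _
      rw [ty_T (by omega) (by omega)]
      exact gl_T_le _)
  have h3 := Mor.pos_add_le (f := G p z o) (tau p) (ZZ p N + (N + 1) + p.Λ * (N + 1)) 1
    (p.J + 3 * (p.H * p.k) + p.H)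
    (fun i hi => by
      unfold tau
      rw [(((h0.add (i := N + 1) (by omega)).add (i := p.Λ * (N + 1)) (by omega)).add
        (i := i) (by omega)).Y_eq, Nat.zero_add, G_length]
      show p.J + gl p (ty p N 0 (N + 1 + p.Λ * (N + 1) + i)) ≤ _
      rw [ty_M (by omega)]
      show p.J + (3 * (p.H * p.k) + p.H) ≤ _
      omega)
  have e1 := XX_length (p := p) z o N (N + 1)
  have e2 := XX_length (p := p) z o N (DD p N)
  rw [show ZZ p N + DD p N = ZZ p N + (N + 1) + p.Λ * (N + 1) + 1 by omega] at e2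
  have hgV := hg.hV N
  generalize (XX p z o N (N + 1)).length = gV at e1 ⊢
  generalize (XX p z o N (DD p N)).length = gD at e2 ⊢
  generalize (N + 1) * (p.J + p.H * p.k * (p.P + 1)) = c1 at h1 hgV
  generalize p.Λ * (N + 1) * (p.J + 2 * (p.H * p.k)) = c2 at h2 hgV
  generalize p.J + 3 * (p.H * p.k) + p.H = c3 at h3 hgV
  have h4 : gD ≤ gV + (c2 + c3) := by omega
  have h5 : R * gD ≤ R * (gV + (c2 + c3)) := Nat.mul_le_mul_left _ h4
  rw [Nat.mul_add] at h5
  have h6 : c1 ≤ gV := by omega
  have h7 : gV ≤ gD := by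
    have h8 := (Mor.pos_strictMono (G_length_pos (p := p) z o) (tau p)).monotone
      (show ZZ p N + (N + 1) ≤ ZZ p N + (N + 1) + p.Λ * (N + 1) + 1 by omega)
    omega
  omega

end Pool.Agent.H38.Ace.Low
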