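import Pool.Agent.H38.Ace.Mor

/-!
# Synchronisation of repetitions in images
-/

set_option autoImplicit false

namespace Pool.Agent.H38.Ace.Mor

variable {A B : Type}

/-- a repetition in the image comes from a repetition in the word, if the beginnings of the blocks
are recognised by two adjacent letters -/
theorem sync [Nonempty B] {f : A → List B} (hf : ∀ a, 0 < (f a).length)
    (hinj : Function.Injective f) (Y : ℕ → A) (C : B → B → Prop)
    (hC : ∀ i, 0 < i → ((∃ j, pos f Y j = i) ↔ C (image f Y (i - 1)) (image f Y i)))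
    (c : ℕ) (hc : ∀ a, (f a).length ≤ c) (s p q : ℕ) (hp : 0 < p)
    (hm : ∀ i < q, image f Y (s + i) = image f Y (s + p + i)) (hq : c < q) :
    ∃ a d n, 0 < d ∧ (∀ t ≤ n, pos f Y (a + d + t) = pos f Y (a + t) + p) ∧
      (∀ t < n, Y (a + t) = Y (a + d + t)) ∧
      q ≤ pos f Y (a + n) - pos f Y a + 2 * c := by
  classical
  have hmono := pos_strictMono hf Y
  -- transfer of beginnings
  have tr : ∀ i, s < i → i < s + q →
      ((∃ j, pos f Y j = i) ↔ (∃ j, pos f Y j = i + p)) := by
    intro i h1 h2
    rw [hC i (by omega), hC (i + p) (by omega)]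
    have e1 := hm (i - s) (by omega)
    have e2 := hm (i - 1 - s) (by omega)
    rw [show s + (i - s) = i by omega, show s + p + (i - s) = i + p by omega] at e1
    rw [show s + (i - 1 - s) = i - 1 by omega,
      show s + p + (i - 1 - s) = i + p - 1 by omega] at e2
    rw [e1, e2]
  -- the first beginning
  have hexa : ∃ a, s < pos f Y a := ⟨s + 1, lt_of_lt_of_le (Nat.lt_succ_self s) (le_pos hf Y _)⟩
  obtain ⟨a, ha1, ha2⟩ : ∃ a, s < pos f Y a ∧ pos f Y a ≤ s + c := by
    refine ⟨Nat.find hexa, Nat.find_spec hexa, ?_⟩
    rcases Nat.eq_zero_or_pos (Nat.find hexa) with h0 | h0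
    · have := Nat.find_spec hexa
      rw [h0, pos_zero] at this
      omega
    · have h1 := Nat.find_min hexa (show Nat.find hexa - 1 < Nat.find hexa by omega)
      have h2 := hc (Y (Nat.find hexa - 1))
      have h3 := pos_succ f Y (Nat.find hexa - 1)
      rw [Nat.sub_add_cancel h0] at h3
      omega
  -- the last beginning
  have hexn : ∃ n, s + q ≤ pos f Y (a + n) := by
    refine ⟨s + q, ?_⟩
    have := le_pos hf Y (a + (s + q))
    omega
  obtain ⟨n, hn1, hn2⟩ : ∃ n, pos f Y (a + n) < s + q ∧ s + q ≤ pos f Y (a + (n + 1)) := by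
    rcases Nat.eq_zero_or_pos (Nat.find hexn) with h0 | h0
    · have := Nat.find_spec hexn
      rw [h0, Nat.add_zero] at this
      omega
    · refine ⟨Nat.find hexn - 1, ?_, ?_⟩
      · have h1 := Nat.find_min hexn (show Nat.find hexn - 1 < Nat.find hexn by omega)
        omega
      · rw [Nat.sub_add_cancel h0]
        exact Nat.find_spec hexn
  obtain ⟨b, hb⟩ := (tr (pos f Y a) ha1 (by omega)).1 ⟨a, rfl⟩
  have hab : a < b := hmono.lt_iff_lt.1 (by omega)
  obtain ⟨d, rfl⟩ := Nat.exists_eq_add_of_le hab.le
  have hal : ∀ t ≤ n, pos f Y (a + d + t) = pos f Y (a + t) + p := by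
    intro t
    induction t with
    | zero =>
      intro _
      exact hb
    | succ t ih =>
      intro ht
      have ih' := ih (by omega)
      have h1 : pos f Y (a + t) < pos f Y (a + (t + 1)) := hmono (by omega)
      have h2 : pos f Y (a + (t + 1)) ≤ pos f Y (a + n) := hmono.monotone (by omega)
      have h3 : pos f Y a ≤ pos f Y (a + t) := hmono.monotone (by omega)
      have h4 : pos f Y (a + d + t) < pos f Y (a + d + (t + 1)) := hmono (by omega)
      apply le_antisymm
      · obtain ⟨b', hb'⟩ := (tr (pos f Y (a + (t + 1))) (by omega) (by omega)).1 ⟨_, rfl⟩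
        have h5 : a + d + t < b' := hmono.lt_iff_lt.1 (by omega)
        rw [← hb']
        exact hmono.monotone (by omega)
      · by_contra hlt
        push Not at hlt
        obtain ⟨a', ha'⟩ := (tr (pos f Y (a + d + (t + 1)) - p) (by omega) (by omega)).2
          ⟨a + d + (t + 1), by omega⟩
        have h5 : a + t < a' := hmono.lt_iff_lt.1 (by omega)
        have h6 : pos f Y (a + (t + 1)) ≤ pos f Y a' := hmono.monotone (by omega)
        omega
  refine ⟨a, d, n, by omega, hal, ?_, ?_⟩
  · intro t ht
    apply hinj
    have e1 := hal t (by omega)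
    have e2 := hal (t + 1) (by omega)
    have e3 := pos_succ f Y (a + t)
    have e4 := pos_succ f Y (a + d + t)
    rw [show a + t + 1 = a + (t + 1) by omega] at e3
    rw [show a + d + t + 1 = a + d + (t + 1) by omega] at e4
    have h2 : pos f Y (a + (t + 1)) ≤ pos f Y (a + n) := hmono.monotone (by omega)
    have h3 : pos f Y a ≤ pos f Y (a + t) := hmono.monotone (by omega)
    rw [block hf Y (a + t), block hf Y (a + d + t),
      show (f (Y (a + d + t))).length = (f (Y (a + t))).length by omega]
    apply fac_congr
    intro i hi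
    have h4 := hm (pos f Y (a + t) + i - s) (by omega)
    rw [show s + (pos f Y (a + t) + i - s) = pos f Y (a + t) + i by omega,
      show s + p + (pos f Y (a + t) + i - s) = pos f Y (a + d + t) + i by omega] at h4
    exact h4
  · have h1 := hc (Y (a + n))
    have h2 := pos_succ f Y (a + n)
    rw [show a + n + 1 = a + (n + 1) by omega] at h2
    have h3 : pos f Y a ≤ pos f Y (a + n) := hmono.monotone (by omega)
    omega

end Pool.Agent.H38.Ace.Mor
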