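import Pool.Agent.H38.Ace.LowRep
import Pool.Agent.H38.Ace.Sync

/-!
# The lower bound: repetitions in the word
-/

set_option autoImplicit false

namespace Pool.Agent.H38.Ace.Low

variable {p : Prm}

/-- the beginning of the syllable number `a` in the word -/
noncomputable def SS (p : Prm) (a : ℕ) : ℕ := pos (phi p) (Y p) a

/-- the word -/
noncomputable def WW (p : Prm) : ℕ → Fin (p.k + 1) := image (phi p) (Y p)

theorem SS_strictMono : StrictMono (SS p) := Mor.pos_strictMono (phi_length_pos p) _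

theorem len_V_heavy (κ : Fin p.k) (b : Bool) : (phi p (κ, Ty.V b)).length ≤ p.J + p.P + 2 :=
  phi_length_le p _

theorem len_T_heavy (κ : Fin p.k) (b : Bool) (h : κ.val = 0) :
    p.J + 1 ≤ (phi p (κ, Ty.T b)).length := by
  rw [phi_length, if_pos h]
  omega

theorem len_V_light (κ : Fin p.k) (b : Bool) (h : κ.val ≠ 0) :
    (phi p (κ, Ty.V b)).length ≤ p.P + 2 := by
  rw [phi_length, if_neg h]
  have := mu_le p κ (Ty.V b)
  show mu p κ (Ty.V b) + 1 ≤ _
  omega

theorem len_T_light (κ : Fin p.k) (b : Bool) (h : κ.val ≠ 0) :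
    (phi p (κ, Ty.T b)).length ≤ 2 := by
  rw [phi_length, if_neg h]
  cases b <;> simp [mu]

theorem len_M_light (κ : Fin p.k) (h : κ.val ≠ 0) :
    (phi p (κ, Ty.M)).length ≤ 4 := by
  rw [phi_length, if_neg h]
  simp only [mu]
  split_ifs <;> omega

theorem copy_le (N j : ℕ) (hj : j < 2 * p.k) (hc : (cls p j).val ≠ 0) :
    SS p (ZZ p N + (j + 1) * DD p N) ≤ SS p (ZZ p N + j * DD p N) +
      ((N + 1) * (p.P + 2) + p.Λ * (N + 1) * 2 + 4) := by
  have hD := DD_eq (p := p) N
  have hL := Λ_mul (p := p) N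
  have h0 : At p (ZZ p N + j * DD p N) N j 0 := ⟨hj, DD_pos p N, rfl⟩
  have h1 := Mor.pos_add_le (f := phi p) (Y p) (ZZ p N + j * DD p N) (N + 1) (p.P + 2)
    (fun i hi => by
      rw [(h0.add (i := i) (by omega)).Y_eq, Nat.zero_add, ty_V hi]
      exact len_V_light _ _ hc)
  have h2 := Mor.pos_add_le (f := phi p) (Y p) (ZZ p N + j * DD p N + (N + 1)) (p.Λ * (N + 1)) 2
    (fun i hi => by
      have := (h0.add (i := N + 1) (by omega)).add (i := i) (by omega)
      rw [this.Y_eq, Nat.zero_add, ty_T (by omega) (by omega)]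
      exact len_T_light _ _ hc)
  have h3 := Mor.pos_add_le (f := phi p) (Y p)
    (ZZ p N + j * DD p N + (N + 1) + p.Λ * (N + 1)) 1 4
    (fun i hi => by
      have := ((h0.add (i := N + 1) (by omega)).add (i := p.Λ * (N + 1)) (by omega)).add
        (i := i) (by omega)
      rw [this.Y_eq, Nat.zero_add, ty_M (by omega)]
      exact len_M_light _ hc)
  have h4 : ZZ p N + (j + 1) * DD p N =
      ZZ p N + j * DD p N + (N + 1) + p.Λ * (N + 1) + 1 := by
    rw [Nat.add_mul, Nat.one_mul]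
    omega
  unfold SS
  rw [h4]
  omega

theorem cls_val {j : ℕ} (hj : j + 1 < p.k) : (cls p j).val = j + 1 := Nat.mod_eq_of_lt hj

theorem cls_last : (cls p (p.k - 1)).val = 0 := by
  have := p.hk
  show (p.k - 1 + 1) % p.k = 0
  rw [Nat.sub_add_cancel this, Nat.mod_self]

theorem copies_le (N j : ℕ) (hj : j < p.k) :
    SS p (ZZ p N + j * DD p N) ≤ SS p (ZZ p N) +
      j * ((N + 1) * (p.P + 2) + p.Λ * (N + 1) * 2 + 4) := by
  induction j with
  | zero => simp
  | succ j ih =>
    have h1 := ih (by omega)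
    have h2 := copy_le (p := p) N j (by omega) (by rw [cls_val hj]; omega)
    rw [Nat.add_mul j 1 ((N + 1) * (p.P + 2) + p.Λ * (N + 1) * 2 + 4), Nat.one_mul]
    omega

theorem main_le (N : ℕ) :
    SS p (ZZ p N + (p.k - 1) * DD p N + (N + 1)) ≤ SS p (ZZ p N) +
      ((p.k - 1) * ((N + 1) * (p.P + 2) + p.Λ * (N + 1) * 2 + 4) +
        (N + 1) * (p.J + p.P + 2)) := by
  have hk := p.hk
  have h1 := copies_le (p := p) N (p.k - 1) (by omega)
  have h2 := Mor.pos_add_le (f := phi p) (Y p) (ZZ p N + (p.k - 1) * DD p N) (N + 1)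
    (p.J + p.P + 2) (fun i _ => phi_length_le p _)
  unfold SS at h1 ⊢
  omega

theorem main_ge (N : ℕ) :
    SS p (ZZ p N + (p.k - 1) * DD p N + (N + 1)) + p.Λ * (N + 1) * (p.J + 1) ≤
      SS p (ZZ p N + p.k * DD p N) := by
  have hk := p.hk
  have hD := DD_eq (p := p) N
  have h0 : At p (ZZ p N + (p.k - 1) * DD p N) N (p.k - 1) 0 :=
    ⟨by omega, DD_pos p N, rfl⟩
  have h2 := Mor.le_pos_add (f := phi p) (Y p) (ZZ p N + (p.k - 1) * DD p N + (N + 1))
    (p.Λ * (N + 1)) (p.J + 1)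
    (fun i hi => by
      have := (h0.add (i := N + 1) (by omega)).add (i := i) (by omega)
      rw [this.Y_eq, Nat.zero_add, ty_T (by omega) (by omega)]
      exact len_T_heavy _ _ cls_last)
  have h3 : SS p (ZZ p N + (p.k - 1) * DD p N + (N + 1) + p.Λ * (N + 1)) ≤
      SS p (ZZ p N + p.k * DD p N) := by
    apply SS_strictMono.monotone
    have h4 : p.k * DD p N = (p.k - 1) * DD p N + DD p N := by
      conv_lhs => rw [← Nat.sub_add_cancel hk, Nat.add_mul, Nat.one_mul]
    omega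
  unfold SS at h3 ⊢
  omega

theorem DD_inj {N N' : ℕ} (h : p.k * DD p N = p.k * DD p N') : N = N' := by
  have h1 := Nat.eq_of_mul_eq_mul_left p.hk h
  unfold DD at h1
  have h2 : (p.Λ + 1) * (N + 1) = (p.Λ + 1) * (N' + 1) := by omega
  have h3 := Nat.eq_of_mul_eq_mul_left (Nat.succ_pos _) h2
  omega

/-- the conditions for the parameters -/
structure Good (p : Prm) (R : ℕ) : Prop where
  hR : 0 < R
  hmain : ∀ N, 2 * R * ((p.k - 1) * ((N + 1) * (p.P + 2) + p.Λ * (N + 1) * 2 + 4) +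
        (N + 1) * (p.J + p.P + 2)) ≤ p.Λ * (N + 1) * (p.J + 1)
  hρ : 12 * R * (p.J + p.P + 2) * CC p ≤ p.ρ
  hV : ∀ N, R * (p.Λ * (N + 1) * (p.J + 2 * (p.H * p.k)) + (p.J + 3 * (p.H * p.k) + p.H)) ≤
    (N + 1) * (p.J + p.H * p.k * (p.P + 1))

theorem EE_le {R : ℕ} (hg : Good p R) (d : ℕ) :
    12 * R * (p.J + p.P + 2) * (CC p * d / p.ρ) ≤ d := by
  have h1 : CC p * d / p.ρ * p.ρ ≤ CC p * d := Nat.div_mul_le_self _ _
  have h2 : CC p * d / p.ρ * (12 * R * (p.J + p.P + 2) * CC p) ≤ CC p * d :=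
    (Nat.mul_le_mul_left _ hg.hρ).trans h1
  have h3 : 0 < CC p := by
    unfold CC
    omega
  refine le_of_mul_le_mul_left ?_ h3
  calc CC p * (12 * R * (p.J + p.P + 2) * (CC p * d / p.ρ)) =
      CC p * d / p.ρ * (12 * R * (p.J + p.P + 2) * CC p) := by ring
    _ ≤ CC p * d := h2

/-- the additive constant -/
def C0 (p : Prm) (R : ℕ) : ℕ := 2 * (R * (p.J + p.P + 2) * (1 + 3 * p.m0)) +
  2 * (R * (p.J + p.P + 2))

theorem run_bound {R : ℕ} (hg : Good p R) {a d n q0 : ℕ} (hd : 0 < d)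
    (hal : ∀ t ≤ n, SS p (a + d + t) = SS p (a + t) + q0)
    (hY : ∀ t < n, Y p (a + t) = Y p (a + d + t)) :
    R * (SS p (a + n) - SS p a) ≤ q0 + 2 * (R * (p.J + p.P + 2) * (1 + 3 * p.m0)) := by
  have hmono := SS_strictMono (p := p)
  have hq0 : d ≤ q0 := by
    have h1 := hal 0 (Nat.zero_le _)
    rw [Nat.add_zero, Nat.add_zero] at h1
    have h2 := Mor.le_pos_add (f := phi p) (Y p) a d 1 (fun i _ => phi_length_pos p _)
    unfold SS at h1
    omega
  have hE := EE_le hg d
  have hEE : EE p d = p.m0 + CC p * d / p.ρ := rfl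
  generalize CC p * d / p.ρ = e at hE hEE
  obtain ⟨c, hc⟩ : ∃ c, c = p.J + p.P + 2 := ⟨_, rfl⟩
  have hup : ∀ b M, SS p (b + M) ≤ SS p b + M * c := by
    intro b M
    rw [hc]
    exact Mor.pos_add_le (f := phi p) (Y p) b M _ (fun i _ => phi_length_le p _)
  rw [← hc] at hE ⊢
  have hB : R * ((1 + 3 * EE p d) * c) = R * c * (1 + 3 * p.m0) + 3 * (R * c * e) := by
    rw [hEE]
    ring
  have hE' : 12 * (R * c * e) ≤ d := by
    calc 12 * (R * c * e) = 12 * R * c * e := by ring
      _ ≤ d := hE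
  by_cases hmain : ∃ t0 < n, Mn p (a + t0) d
  · obtain ⟨t0, ht0, N, hdN, h1, h2⟩ := hmain
    have hnm : ∀ t, ¬ (ZZ p N ≤ t ∧ t < ZZ p N + (p.k - 1) * DD p N + (N + 1)) → ¬ Mn p t d := by
      rintro t ht ⟨N', hdN', h3, h4⟩
      have : N = N' := DD_inj (hdN.symm.trans hdN')
      subst this
      exact ht ⟨h3, h4⟩
    have hme := main_le (p := p) N
    have hmg := main_ge (p := p) N
    have hgm := hg.hmain N
    rw [← hc] at hme hgm
    have hek : ZZ p N + (p.k - 1) * DD p N + (N + 1) ≤ ZZ p N + p.k * DD p N := by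
      have := (hmono.le_iff_le (a := ZZ p N + (p.k - 1) * DD p N + (N + 1))
        (b := ZZ p N + p.k * DD p N)).1 (by omega)
      exact this
    generalize ZZ p N + (p.k - 1) * DD p N + (N + 1) = en at h2 hnm hme hmg hek
    generalize (p.k - 1) * ((N + 1) * (p.P + 2) + p.Λ * (N + 1) * 2 + 4) +
        (N + 1) * c = g1 at hme hgm
    generalize p.Λ * (N + 1) * (p.J + 1) = g2 at hmg hgm
    generalize ZZ p N = zn at h1 hnm hme hmg hek
    -- the length
    have hq1 : g2 ≤ q0 := by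
      have h3 := hal t0 ht0.le
      have h4 := hmono.monotone (show a + t0 ≤ en by omega)
      have h5 := hmono.monotone (show zn + p.k * DD p N ≤ a + d + t0 by rw [← hdN]; omega)
      omega
    -- the part before
    have hn1 : zn - a ≤ 1 + 3 * EE p d :=
      walk hd (fun t ht => hY t (by omega)) (fun t ht => hnm _ (by omega))
    -- the part after
    have hn3 : a + n - en ≤ 1 + 3 * EE p d := by
      apply walk (a := en) hd
      · intro t ht
        have := hY (en - a + t) (by omega)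
        rw [show a + (en - a + t) = en + t by omega,
          show a + d + (en - a + t) = en + d + t by omega] at this
        exact this
      · exact fun t ht => hnm _ (by omega)
    have h6 := hup a (zn - a)
    have h7 := hup en (a + n - en)
    have h8 := hmono.monotone (show zn ≤ a + (zn - a) by omega)
    have h9 := hmono.monotone (show a + n ≤ en + (a + n - en) by omega)
    have h10 : (zn - a) * c ≤ (1 + 3 * EE p d) * c := Nat.mul_le_mul_right _ hn1
    have h11 : (a + n - en) * c ≤ (1 + 3 * EE p d) * c := Nat.mul_le_mul_right _ hn3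
    have h12 : SS p (a + n) - SS p a ≤ g1 + ((1 + 3 * EE p d) * c + (1 + 3 * EE p d) * c) := by
      omega
    have h13 : R * (SS p (a + n) - SS p a) ≤
        R * g1 + (R * ((1 + 3 * EE p d) * c) + R * ((1 + 3 * EE p d) * c)) := by
      calc R * (SS p (a + n) - SS p a) ≤ R * (g1 + ((1 + 3 * EE p d) * c +
            (1 + 3 * EE p d) * c)) := Nat.mul_le_mul_left _ h12
        _ = _ := by ring
    rw [hB] at h13
    have h14 : 2 * (R * g1) ≤ g2 := by
      calc 2 * (R * g1) = 2 * R * g1 := by ring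
        _ ≤ g2 := hgm
    omega
  · push Not at hmain
    have hn := walk hd hY hmain
    have h1 := hup a n
    have h2 : n * c ≤ (1 + 3 * EE p d) * c := Nat.mul_le_mul_right _ hn
    have h3 : R * (SS p (a + n) - SS p a) ≤ R * ((1 + 3 * EE p d) * c) :=
      Nat.mul_le_mul_left _ (by omega)
    rw [hB] at h3
    omega

/-- the bound for the repetitions of the word -/
theorem word_bound {R : ℕ} (hg : Good p R) (s q0 q : ℕ) (hq0 : 0 < q0)
    (hm : ∀ i < q, WW p (s + i) = WW p (s + q0 + i)) : R * q ≤ q0 + C0 p R := by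
  unfold C0
  by_cases hq : p.J + p.P + 2 < q
  · obtain ⟨a, d, n, hd, hal, hY, hle⟩ := Mor.sync (phi_length_pos p) (phi_inj p) (Y p)
      (fun u v => v ≠ Fin.last p.k ∧ ¬ (v = 0 ∧ u = 0)) (fun i hi => start_iff p (Y p) i hi)
      (p.J + p.P + 2) (phi_length_le p) s q0 q hq0 hm hq
    have h1 := run_bound hg hd hal hY
    have h2 : R * q ≤ R * (SS p (a + n) - SS p a + 2 * (p.J + p.P + 2)) :=
      Nat.mul_le_mul_left _ hle
    rw [Nat.mul_add] at h2
    have h3 : R * (2 * (p.J + p.P + 2)) = 2 * (R * (p.J + p.P + 2)) := by ring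
    omega
  · have h1 : R * q ≤ R * (p.J + p.P + 2) := Nat.mul_le_mul_left _ (by omega)
    omega

end Pool.Agent.H38.Ace.Low
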