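import Pool.Agent.H38.Ace.LowDef

/-!
# The lower bound: the syllables are recognised
-/

set_option autoImplicit false

namespace Pool.Agent.H38.Ace.Low

variable (p : Prm)

theorem phi_length (s : Fin p.k × Ty) :
    (phi p s).length = if s.1.val = 0 then p.J + mu p s.1 s.2 + 1 else mu p s.1 s.2 + 1 := by
  unfold phi
  split_ifs with h
  · simp [Nat.add_assoc]
  · simp

theorem phi_length_pos (s : Fin p.k × Ty) : 0 < (phi p s).length := by
  rw [phi_length]
  split_ifs <;> omega

theorem castSucc_zero (κ : Fin p.k) (h : κ.val = 0) : κ.castSucc = (0 : Fin (p.k + 1)) := by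
  apply Fin.ext
  simpa using h

theorem castSucc_ne_last (κ : Fin p.k) : κ.castSucc ≠ Fin.last p.k := by
  intro h
  have := congrArg Fin.val h
  simp at this
  have := κ.2
  omega

theorem last_ne_zero : Fin.last p.k ≠ (0 : Fin (p.k + 1)) := by
  intro h
  have := congrArg Fin.val h
  simp at this
  have := p.hk
  omega

theorem phi_get_zero (s : Fin p.k × Ty) : (phi p s)[0]? = some s.1.castSucc := by
  have hJ := p.hJ
  unfold phi
  split_ifs with h
  · rw [List.getElem?_append_left (by simpa using hJ), castSucc_zero p s.1 h]
    simp [hJ]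
  · simp

theorem phi_get_pos (s : Fin p.k × Ty) (r : ℕ) (h0 : 0 < r) (hr : r < (phi p s).length) :
    (phi p s)[r]? = some (Fin.last p.k) ∨
      ((phi p s)[r]? = some 0 ∧ (phi p s)[r - 1]? = some 0) := by
  rw [phi_length] at hr
  unfold phi
  split_ifs at hr ⊢ with h
  · by_cases hrJ : r < p.J
    · right
      constructor
      · rw [List.getElem?_append_left (by simpa using hrJ)]
        simp [hrJ]
      · rw [List.getElem?_append_left (by rw [List.length_replicate]; omega)]
        rw [List.getElem?_replicate]
        rw [if_pos (by omega)]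
    · left
      rw [List.getElem?_append_right (by rw [List.length_replicate]; omega)]
      rw [List.getElem?_replicate, List.length_replicate, if_pos (by omega)]
  · left
    obtain ⟨r, rfl⟩ : ∃ r', r = r' + 1 := ⟨r - 1, by omega⟩
    rw [List.getElem?_cons_succ, List.getElem?_replicate, if_pos (by omega)]

theorem phi_get_end (s : Fin p.k × Ty) : (phi p s)[(phi p s).length - 1]? ≠ some 0 := by
  rw [phi_length]
  unfold phi
  split_ifs with h
  · rw [List.getElem?_append_right (by rw [List.length_replicate]; omega)]
    rw [List.getElem?_replicate, List.length_replicate, if_pos (by omega)]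
    intro h1
    exact last_ne_zero p (Option.some.inj h1)
  · rw [Nat.add_sub_cancel]
    by_cases hm : mu p s.1 s.2 = 0
    · rw [hm]
      rw [List.getElem?_cons_zero]
      intro h1
      have h2 := congrArg Fin.val (Option.some.inj h1)
      simp at h2
      exact h h2
    · obtain ⟨r, hr⟩ : ∃ r', mu p s.1 s.2 = r' + 1 := ⟨mu p s.1 s.2 - 1, by omega⟩
      rw [hr, List.getElem?_cons_succ, List.getElem?_replicate, if_pos (by omega)]
      intro h1
      exact last_ne_zero p (Option.some.inj h1)

theorem mu_inj (κ : Fin p.k) {s t : Ty} (h : mu p κ s = mu p κ t) : s = t := by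
  have hP := p.hP
  cases s with
  | T b =>
    cases t with
    | T c => cases b <;> cases c <;> simp [mu] at h ⊢
    | V c => cases b <;> cases c <;> simp [mu] at h <;> omega
    | M => cases b <;> simp only [mu] at h <;> split_ifs at h <;> simp at h
  | V b =>
    cases t with
    | T c => cases b <;> cases c <;> simp [mu] at h <;> omega
    | V c => cases b <;> cases c <;> simp [mu] at h ⊢
    | M => cases b <;> simp only [mu] at h <;> split_ifs at h <;> simp at h <;> omega
  | M =>
    cases t with
    | T c => cases c <;> simp only [mu] at h <;> split_ifs at h <;> simp at h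
    | V c => cases c <;> simp only [mu] at h <;> split_ifs at h <;> simp at h <;> omega
    | M => rfl

theorem phi_inj : Function.Injective (phi p) := by
  intro s t h
  have h1 : s.1 = t.1 := by
    have h2 := phi_get_zero p s
    rw [h, phi_get_zero p t] at h2
    exact (Fin.castSucc_injective _ (Option.some.inj h2)).symm
  have h3 : mu p s.1 s.2 = mu p t.1 t.2 := by
    have h4 := phi_length p s
    have h5 := phi_length p t
    rw [h, h5, ← h1] at h4
    rw [← h1]
    split_ifs at h4 <;> omega
  rw [← h1] at h3
  exact Prod.ext h1 (mu_inj p _ h3)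

theorem mu_le (κ : Fin p.k) (s : Ty) : mu p κ s ≤ p.P + 1 := by
  have hP := p.hP
  cases s with
  | T b => cases b <;> simp [mu]
  | V b => cases b <;> simp [mu]
  | M => simp only [mu]; split_ifs <;> omega

theorem phi_length_le (s : Fin p.k × Ty) : (phi p s).length ≤ p.J + p.P + 2 := by
  have := mu_le p s.1 s.2
  rw [phi_length]
  split_ifs <;> omega

/-- the beginnings of the syllables are recognised -/
theorem start_iff (Y : ℕ → Fin p.k × Ty) (i : ℕ) (hi : 0 < i) :
    (∃ j, pos (phi p) Y j = i) ↔
      (image (phi p) Y i ≠ Fin.last p.k ∧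
        ¬ (image (phi p) Y i = 0 ∧ image (phi p) Y (i - 1) = 0)) := by
  have hlen := phi_length_pos p
  constructor
  · rintro ⟨j, rfl⟩
    have h1 := Mor.block_get hlen Y j 0 (hlen _)
    rw [phi_get_zero, Nat.add_zero (pos (phi p) Y j)] at h1
    have h2 := Option.some.inj h1
    refine ⟨?_, ?_⟩
    · rw [← h2]
      exact castSucc_ne_last p _
    · rintro ⟨-, h4⟩
      have hj : 0 < j := by
        by_contra hj
        have : j = 0 := by omega
        subst this
        rw [Mor.pos_zero] at hi
        omega
      obtain ⟨j, rfl⟩ : ∃ j', j = j' + 1 := ⟨j - 1, by omega⟩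
      have h5 := phi_get_end p (Y j)
      rw [Mor.block_get hlen Y j _ (by have := hlen (Y j); omega)] at h5
      apply h5
      congr 1
      rw [← h4]
      congr 1
      rw [pos_succ]
      have := hlen (Y j)
      omega
  · rintro ⟨h1, h2⟩
    obtain ⟨j, hj1, hj2⟩ := Mor.exists_block hlen Y i
    by_cases hij : pos (phi p) Y j = i
    · exact ⟨j, hij⟩
    · exfalso
      rw [pos_succ] at hj2
      obtain ⟨r, hr⟩ := Nat.exists_eq_add_of_le hj1
      have hr1 : r < (phi p (Y j)).length := by omega
      have hr0 : 0 < r := by omega
      rcases phi_get_pos p (Y j) r hr0 hr1 with h | ⟨h3, h4⟩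
      · rw [Mor.block_get hlen Y j r hr1, ← hr] at h
        exact h1 (Option.some.inj h)
      · rw [Mor.block_get hlen Y j r hr1, ← hr] at h3
        rw [Mor.block_get hlen Y j (r - 1) (by omega),
          show pos (phi p) Y j + (r - 1) = i - 1 by omega] at h4
        exact h2 ⟨Option.some.inj h3, Option.some.inj h4⟩

end Pool.Agent.H38.Ace.Low
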