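import Pool.Agent.H38.Ace.LowY

/-!
# The lower bound: repetitions in the word of syllables
-/

set_option autoImplicit false

namespace Pool.Agent.H38.Ace.Low

/-- the constant in the comparison of distances -/
def CC (p : Prm) : ℕ := 1 + 2 * p.k * (p.Λ + 2)

/-- the bound for the length of a piece -/
def EE (p : Prm) (d : ℕ) : ℕ := p.m0 + CC p * d / p.ρ

/-- the main repetitions -/
def Mn (p : Prm) (t d : ℕ) : Prop :=
  ∃ N, d = p.k * DD p N ∧ ZZ p N ≤ t ∧ t < ZZ p N + (p.k - 1) * DD p N + (N + 1)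

variable {p : Prm}

theorem x_short {a b l d : ℕ} (hab : a ≠ b) (h1 : a ≤ b + CC p * d) (h2 : b ≤ a + CC p * d)
    (h : ∀ i < l, p.x (a + i) = p.x (b + i)) : l ≤ EE p d := by
  have key : ∀ a b : ℕ, a < b → b ≤ a + CC p * d → (∀ i < l, p.x (a + i) = p.x (b + i)) →
      l ≤ EE p d := by
    intro a b hab h2 h
    obtain ⟨q, rfl⟩ := Nat.exists_eq_add_of_le hab.le
    obtain ⟨j, hj, hne⟩ := p.hx q a (by omega)
    have h3 : l ≤ j := by
      by_contra hc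
      exact hne (h j (by omega))
    have h4 : q / p.ρ ≤ CC p * d / p.ρ := Nat.div_le_div_right (by omega)
    unfold EE
    omega
  rcases Nat.lt_or_gt_of_ne hab with h3 | h3
  · exact key a b h3 h2 h
  · exact key b a h3 h1 fun i hi => (h i hi).symm

theorem copy_end {t1 t2 N1 j1 o1 N2 j2 o2 : ℕ} (h1 : At p t1 N1 j1 o1) (h2 : At p t2 N2 j2 o2)
    (hlt : t1 < t2) (hne : ¬ (N1 = N2 ∧ j1 = j2)) :
    ZZ p N1 + (j1 + 1) * DD p N1 ≤ ZZ p N2 + j2 * DD p N2 ∧ N1 ≤ N2 := by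
  rcases h1.order h2 hlt with h3 | ⟨h3, h4 | ⟨h4, -⟩⟩
  · have h5 := (ZZ_strictMono p).monotone (show N1 + 1 ≤ N2 from h3)
    rw [ZZ_succ] at h5
    have h6 : (j1 + 1) * DD p N1 ≤ 2 * p.k * DD p N1 := Nat.mul_le_mul_right _ h1.hj
    omega
  · subst h3
    have h6 : (j1 + 1) * DD p N1 ≤ j2 * DD p N1 := Nat.mul_le_mul_right _ h4
    omega
  · exact absurd ⟨h3, h4⟩ hne

theorem dist_far {t1 t2 N1 j1 o1 N2 j2 o2 : ℕ} (h1 : At p t1 N1 j1 o1) (h2 : At p t2 N2 j2 o2)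
    (hlt : t1 < t2) (hfar : N1 + 1 ≤ t2 - t1) {i1 i2 : ℕ} (ha : ZZ p N1 ≤ i1) (hb : i1 ≤ t1)
    (hc : ZZ p N2 ≤ i2) (hd : i2 ≤ t2) :
    i1 ≤ i2 + CC p * (t2 - t1) ∧ i2 ≤ i1 + CC p * (t2 - t1) := by
  have h3 := h1.lt_next
  rw [ZZ_succ] at h3
  have hN : N1 ≤ N2 := by
    rcases h1.order h2 hlt with h4 | ⟨h4, -⟩ <;> omega
  have h4 := (ZZ_strictMono p).monotone hN
  obtain ⟨d, rfl⟩ := Nat.exists_eq_add_of_le hlt.le
  rw [Nat.add_sub_cancel_left] at hfar ⊢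
  have h5 : DD p N1 ≤ (p.Λ + 2) * (N1 + 1) := by
    rw [DD_eq, Nat.add_mul]
    omega
  have h6 : 2 * p.k * DD p N1 ≤ 2 * p.k * (p.Λ + 2) * d := by
    calc 2 * p.k * DD p N1 ≤ 2 * p.k * ((p.Λ + 2) * (N1 + 1)) := Nat.mul_le_mul_left _ h5
      _ = 2 * p.k * (p.Λ + 2) * (N1 + 1) := by ring
      _ ≤ 2 * p.k * (p.Λ + 2) * d := Nat.mul_le_mul_left _ hfar
  have h7 : CC p * d = d + 2 * p.k * (p.Λ + 2) * d := by
    unfold CC
    ring
  omega

theorem le_CC_mul (d : ℕ) : d ≤ CC p * d := by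
  have h7 : CC p * d = d + 2 * p.k * (p.Λ + 2) * d := by
    unfold CC
    ring
  omega

theorem cls_eq {j1 j2 : ℕ} (hlt : j1 < j2) (h2 : j2 < 2 * p.k) (h : cls p j1 = cls p j2) :
    j2 = j1 + p.k := by
  have h1 : (j1 + 1) % p.k = (j2 + 1) % p.k := congrArg Fin.val h
  have h3 : (j2 - j1) % p.k = 0 := by
    have h4 : (j2 + 1) ≡ (j1 + 1) [MOD p.k] := h1.symm
    have h5 : p.k ∣ (j2 + 1) - (j1 + 1) := (Nat.modEq_iff_dvd' (by omega)).1 h4.symm
    rw [show j2 + 1 - (j1 + 1) = j2 - j1 by omega] at h5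
    exact Nat.mod_eq_zero_of_dvd h5
  obtain ⟨c, hc⟩ := Nat.dvd_of_mod_eq_zero h3
  have hc1 : c = 1 := by
    have hk := p.hk
    rcases Nat.lt_or_ge c 2 with h4 | h4
    · interval_cases c
      · omega
      · rfl
    · have : p.k * 2 ≤ p.k * c := Nat.mul_le_mul_left _ h4
      omega
  subst hc1
  omega

theorem main_of_V {t1 t2 N j1 j2 o : ℕ} (h1 : At p t1 N j1 o) (h2 : At p t2 N j2 o)
    (hlt : t1 < t2) (ho : o < N + 1) (hY : Y p t1 = Y p t2) : Mn p t1 (t2 - t1) := by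
  have hj : j1 < j2 := by
    rcases h1.order h2 hlt with h | ⟨-, h | ⟨-, h⟩⟩ <;> omega
  have hc : cls p j1 = cls p j2 := by
    rw [h1.Y_eq, h2.Y_eq] at hY
    exact congrArg Prod.fst hY
  have h3 := cls_eq hj h2.hj hc
  subst h3
  refine ⟨N, ?_, h1.ge, ?_⟩
  · rw [h1.ht, h2.ht, Nat.add_mul]
    omega
  · have h4 := h2.hj
    have h5 : j1 * DD p N ≤ (p.k - 1) * DD p N := Nat.mul_le_mul_right _ (by omega)
    rw [h1.ht]
    omega

theorem main_of_T {t1 t2 N j1 j2 o : ℕ} (h1 : At p t1 N j1 o) (h2 : At p t2 N j2 o)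
    (hlt : t1 < t2) (hj2 : j2 + 1 ≠ 2 * p.k) (hY : Y p t1 = Y p t2) : Mn p t1 (t2 - t1) := by
  have hj : j1 < j2 := by
    rcases h1.order h2 hlt with h | ⟨-, h | ⟨-, h⟩⟩ <;> omega
  have hc : cls p j1 = cls p j2 := by
    rw [h1.Y_eq, h2.Y_eq] at hY
    exact congrArg Prod.fst hY
  have h3 := cls_eq hj h2.hj hc
  subst h3
  refine ⟨N, ?_, h1.ge, ?_⟩
  · rw [h1.ht, h2.ht, Nat.add_mul]
    omega
  · have h4 := h2.hj
    have h5 : (j1 + 1) * DD p N ≤ (p.k - 1) * DD p N := Nat.mul_le_mul_right _ (by omega)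
    rw [Nat.add_mul] at h5
    have := h1.ho
    rw [h1.ht]
    omega

theorem idx_ne_V {t1 t2 N1 j1 o1 N2 j2 o2 : ℕ} (h1 : At p t1 N1 j1 o1)
    (h2 : At p t2 N2 j2 o2) (hlt : t1 < t2) (hV1 : o1 < N1 + 1)
    (hY : Y p t1 = Y p t2) (hM : ¬ Mn p t1 (t2 - t1)) : ZZ p N1 + o1 ≠ ZZ p N2 + o2 := by
  intro h
  have hk := p.hk
  have a1 : At p (ZZ p N1 + o1) N1 0 o1 := ⟨by omega, h1.ho, by omega⟩
  have a2 : At p (ZZ p N1 + o1) N2 0 o2 := ⟨by omega, h2.ho, by omega⟩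
  obtain ⟨rfl, -, rfl⟩ := a1.unique a2
  exact hM (main_of_V h1 h2 hlt hV1 hY)

theorem runV {t1 t2 N1 j1 o1 N2 j2 o2 n : ℕ} (h1 : At p t1 N1 j1 o1)
    (h2 : At p t2 N2 j2 o2) (hlt : t1 < t2) (hV1 : o1 < N1 + 1) (hV2 : o2 < N2 + 1) (hn : 0 < n)
    (hY : ∀ t < n, Y p (t1 + t) = Y p (t2 + t)) (hM : ¬ Mn p t1 (t2 - t1)) :
    n ≤ EE p (t2 - t1) ∨
      ∃ l ≤ EE p (t2 - t1), l < n ∧ o1 + l = N1 + 1 ∧ o2 + l = N2 + 1 := by
  have hne := idx_ne_V h1 h2 hlt hV1 (hY 0 hn) hM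
  have hD1 := DD_eq (p := p) N1
  have hD2 := DD_eq (p := p) N2
  have hL1 := Λ_mul (p := p) N1
  have hL2 := Λ_mul (p := p) N2
  have hdist : ZZ p N1 + o1 ≤ ZZ p N2 + o2 + CC p * (t2 - t1) ∧
      ZZ p N2 + o2 ≤ ZZ p N1 + o1 + CC p * (t2 - t1) := by
    by_cases hc : N1 = N2 ∧ j1 = j2
    · obtain ⟨rfl, rfl⟩ := hc
      have := le_CC_mul (p := p) (t2 - t1)
      have e1 := h1.ht
      have e2 := h2.ht
      omega
    · have h3 := copy_end h1 h2 hlt hc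
      have e1 := h1.ht
      have e2 := h2.ht
      rw [Nat.add_mul] at h3
      exact dist_far h1 h2 hlt (by omega) (by omega) (by omega) (by omega) (by omega)
  have hshort : ∀ l, l ≤ n → o1 + l ≤ N1 + 1 → o2 + l ≤ N2 + 1 → l ≤ EE p (t2 - t1) := by
    intro l hl hl1 hl2
    refine x_short hne hdist.1 hdist.2 fun i hi => ?_
    have e := hY i (by omega)
    rw [(h1.add (i := i) (by omega)).Y_eq, (h2.add (i := i) (by omega)).Y_eq,
      ty_V (by omega), ty_V (by omega)] at e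
    have e2 := congrArg Prod.snd e
    have e3 := Ty.V.inj e2
    rw [Nat.add_assoc, Nat.add_assoc]
    exact e3
  by_cases hA : o1 + n ≤ N1 + 1 ∧ o2 + n ≤ N2 + 1
  · exact Or.inl (hshort n le_rfl hA.1 hA.2)
  · right
    obtain ⟨l, hl1, hl2, hl3⟩ : ∃ l, o1 + l ≤ N1 + 1 ∧ o2 + l ≤ N2 + 1 ∧
        (o1 + l = N1 + 1 ∨ o2 + l = N2 + 1) := by
      rcases Nat.le_total (N1 + 1 - o1) (N2 + 1 - o2) with h3 | h3
      · exact ⟨N1 + 1 - o1, by omega, by omega, by omega⟩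
      · exact ⟨N2 + 1 - o2, by omega, by omega, by omega⟩
    have hln : l < n := by omega
    refine ⟨l, hshort l hln.le hl1 hl2, hln, ?_⟩
    have e := hY l hln
    have a1 := h1.add (i := l) (by omega)
    have a2 := h2.add (i := l) (by omega)
    rw [a1.Y_eq, a2.Y_eq] at e
    have e2 := congrArg Prod.snd e
    have e3 : (∃ b, ty p N1 j1 (o1 + l) = Ty.V b) ↔ (∃ b, ty p N2 j2 (o2 + l) = Ty.V b) := by
      simp only at e2
      rw [e2]
    rw [ty_eq_V_iff a1.ho, ty_eq_V_iff a2.ho] at e3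
    omega

theorem idx_ne_T {t1 t2 N1 j1 o1 N2 j2 o2 : ℕ} (h1 : At p t1 N1 j1 o1)
    (h2 : At p t2 N2 j2 o2) (hlt : t1 < t2)
    (hY : Y p t1 = Y p t2) (hM : ¬ Mn p t1 (t2 - t1)) :
    (if j1 + 1 = 2 * p.k then ZZ p N1 + j1 * DD p N1 + o1 else ZZ p N1 + o1) ≠
      (if j2 + 1 = 2 * p.k then ZZ p N2 + j2 * DD p N2 + o2 else ZZ p N2 + o2) := by
  intro h
  have hk := p.hk
  have a1 : At p (ZZ p N1 + o1) N1 0 o1 := ⟨by omega, h1.ho, by omega⟩
  have a2 : At p (ZZ p N2 + o2) N2 0 o2 := ⟨by omega, h2.ho, by omega⟩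
  split_ifs at h with c1 c2 c2
  · have e1 := h1.ht
    have e2 := h2.ht
    omega
  · rw [← h1.ht] at h
    rw [← h] at a2
    have := h1.unique a2
    omega
  · rw [← h2.ht] at h
    rw [h] at a1
    have := h2.unique a1
    omega
  · rw [← h] at a2
    obtain ⟨rfl, -, rfl⟩ := a1.unique a2
    exact hM (main_of_T h1 h2 hlt c2 hY)

theorem runT {t1 t2 N1 j1 o1 N2 j2 o2 n : ℕ} (h1 : At p t1 N1 j1 o1)
    (h2 : At p t2 N2 j2 o2) (hlt : t1 < t2) (hT1 : N1 + 1 ≤ o1) (hT1' : o1 + 1 < DD p N1)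
    (hT2 : N2 + 1 ≤ o2) (hT2' : o2 + 1 < DD p N2) (hn : 0 < n)
    (hY : ∀ t < n, Y p (t1 + t) = Y p (t2 + t)) (hM : ¬ Mn p t1 (t2 - t1)) :
    n ≤ EE p (t2 - t1) ∨
      ∃ l ≤ EE p (t2 - t1), l < n ∧ o1 + l + 1 = DD p N1 ∧ o2 + l + 1 = DD p N2 := by
  have hne := idx_ne_T h1 h2 hlt (hY 0 hn) hM
  have hD1 := DD_eq (p := p) N1
  have hD2 := DD_eq (p := p) N2
  have e1 := h1.ht
  have e2 := h2.ht
  obtain ⟨i1, hi1⟩ : ∃ i1, i1 =
    (if j1 + 1 = 2 * p.k then ZZ p N1 + j1 * DD p N1 + o1 else ZZ p N1 + o1) := ⟨_, rfl⟩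
  obtain ⟨i2, hi2⟩ : ∃ i2, i2 =
    (if j2 + 1 = 2 * p.k then ZZ p N2 + j2 * DD p N2 + o2 else ZZ p N2 + o2) := ⟨_, rfl⟩
  rw [← hi1, ← hi2] at hne
  have hi1a : ZZ p N1 ≤ i1 ∧ i1 ≤ t1 := by
    rw [hi1]
    split_ifs <;> omega
  have hi2a : ZZ p N2 ≤ i2 ∧ i2 ≤ t2 := by
    rw [hi2]
    split_ifs <;> omega
  have hdist : i1 ≤ i2 + CC p * (t2 - t1) ∧ i2 ≤ i1 + CC p * (t2 - t1) := by
    by_cases hc : N1 = N2 ∧ j1 = j2
    · obtain ⟨rfl, rfl⟩ := hc
      have := le_CC_mul (p := p) (t2 - t1)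
      split_ifs at hi1 hi2 <;> omega
    · have h3 := copy_end h1 h2 hlt hc
      rw [Nat.add_mul] at h3
      have := h1.ho
      exact dist_far h1 h2 hlt (by omega) hi1a.1 hi1a.2 hi2a.1 hi2a.2
  have hshort : ∀ l, l ≤ n → o1 + l + 1 ≤ DD p N1 → o2 + l + 1 ≤ DD p N2 →
      l ≤ EE p (t2 - t1) := by
    intro l hl hl1 hl2
    refine x_short hne hdist.1 hdist.2 fun i hi => ?_
    have e := hY i (by omega)
    rw [(h1.add (i := i) (by omega)).Y_eq, (h2.add (i := i) (by omega)).Y_eq,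
      ty_T (by omega) (by omega), ty_T (by omega) (by omega)] at e
    have e2 := congrArg Prod.snd e
    have e3 := Ty.T.inj e2
    have g1 : (if j1 + 1 = 2 * p.k then ZZ p N1 + j1 * DD p N1 + (o1 + i)
        else ZZ p N1 + (o1 + i)) = i1 + i := by
      rw [hi1]
      split_ifs <;> omega
    have g2 : (if j2 + 1 = 2 * p.k then ZZ p N2 + j2 * DD p N2 + (o2 + i)
        else ZZ p N2 + (o2 + i)) = i2 + i := by
      rw [hi2]
      split_ifs <;> omega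
    rw [g1, g2] at e3
    exact e3
  by_cases hA : o1 + n + 1 ≤ DD p N1 ∧ o2 + n + 1 ≤ DD p N2
  · exact Or.inl (hshort n le_rfl hA.1 hA.2)
  · right
    obtain ⟨l, hl1, hl2, hl3⟩ : ∃ l, o1 + l + 1 ≤ DD p N1 ∧ o2 + l + 1 ≤ DD p N2 ∧
        (o1 + l + 1 = DD p N1 ∨ o2 + l + 1 = DD p N2) := by
      rcases Nat.le_total (DD p N1 - 1 - o1) (DD p N2 - 1 - o2) with h3 | h3
      · exact ⟨DD p N1 - 1 - o1, by omega, by omega, by omega⟩
      · exact ⟨DD p N2 - 1 - o2, by omega, by omega, by omega⟩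
    have hln : l < n := by omega
    refine ⟨l, hshort l hln.le hl1 hl2, hln, ?_⟩
    have e := hY l hln
    have a1 := h1.add (i := l) (by omega)
    have a2 := h2.add (i := l) (by omega)
    rw [a1.Y_eq, a2.Y_eq] at e
    have e2 := congrArg Prod.snd e
    have e3 : (ty p N1 j1 (o1 + l) = Ty.M) ↔ (ty p N2 j2 (o2 + l) = Ty.M) := by
      simp only at e2
      rw [e2]
    rw [ty_eq_M_iff a1.ho, ty_eq_M_iff a2.ho] at e3
    omega

theorem runA {t1 t2 N1 j1 N2 j2 n : ℕ} (h1 : At p t1 N1 j1 0) (h2 : At p t2 N2 j2 0)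
    (hlt : t1 < t2) (hY : ∀ t < n, Y p (t1 + t) = Y p (t2 + t))
    (hM : ∀ t < n, ¬ Mn p (t1 + t) (t2 - t1)) : n ≤ EE p (t2 - t1) := by
  rcases Nat.eq_zero_or_pos n with h0 | h0
  · omega
  · have hne := idx_ne_V h1 h2 hlt (by omega) (hY 0 h0) (hM 0 h0)
    rcases runV h1 h2 hlt (by omega) (by omega) h0 hY (hM 0 h0) with h3 | ⟨l, -, -, h4, h5⟩
    · exact h3
    · exfalso
      have : N1 = N2 := by omega
      subst this
      exact hne rfl

theorem runM {t1 t2 N1 j1 o1 N2 j2 o2 n : ℕ} (h1 : At p t1 N1 j1 o1)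
    (h2 : At p t2 N2 j2 o2) (hlt : t1 < t2) (hM1 : o1 + 1 = DD p N1) (hM2 : o2 + 1 = DD p N2)
    (hY : ∀ t < n, Y p (t1 + t) = Y p (t2 + t))
    (hM : ∀ t < n, ¬ Mn p (t1 + t) (t2 - t1)) : n ≤ 1 + EE p (t2 - t1) := by
  obtain ⟨N1', j1', a1⟩ := h1.next hM1
  obtain ⟨N2', j2', a2⟩ := h2.next hM2
  have h3 := runA (n := n - 1) a1 a2 (by omega)
    (fun t ht => by
      have := hY (t + 1) (by omega)
      rw [show t1 + 1 + t = t1 + (t + 1) by omega, show t2 + 1 + t = t2 + (t + 1) by omega]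
      exact this)
    (fun t ht => by
      have := hM (t + 1) (by omega)
      rw [show t1 + 1 + t = t1 + (t + 1) by omega,
        show t2 + 1 - (t1 + 1) = t2 - t1 by omega]
      exact this)
  rw [show t2 + 1 - (t1 + 1) = t2 - t1 by omega] at h3
  omega

theorem runT' {t1 t2 N1 j1 o1 N2 j2 o2 n : ℕ} (h1 : At p t1 N1 j1 o1)
    (h2 : At p t2 N2 j2 o2) (hlt : t1 < t2) (hT1 : N1 + 1 ≤ o1) (hT1' : o1 + 1 < DD p N1)
    (hT2 : N2 + 1 ≤ o2) (hT2' : o2 + 1 < DD p N2)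
    (hY : ∀ t < n, Y p (t1 + t) = Y p (t2 + t))
    (hM : ∀ t < n, ¬ Mn p (t1 + t) (t2 - t1)) : n ≤ 1 + 2 * EE p (t2 - t1) := by
  rcases Nat.eq_zero_or_pos n with h0 | h0
  · omega
  · rcases runT h1 h2 hlt hT1 hT1' hT2 hT2' h0 hY (hM 0 h0) with h3 | ⟨l, hl, hln, h4, h5⟩
    · omega
    · have h6 := runM (n := n - l) (h1.add (i := l) (by omega)) (h2.add (i := l) (by omega))
        (by omega) h4 h5
        (fun t ht => by
          have := hY (l + t) (by omega)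
          rw [show t1 + l + t = t1 + (l + t) by omega, show t2 + l + t = t2 + (l + t) by omega]
          exact this)
        (fun t ht => by
          have := hM (l + t) (by omega)
          rw [show t1 + l + t = t1 + (l + t) by omega,
            show t2 + l - (t1 + l) = t2 - t1 by omega]
          exact this)
      rw [show t2 + l - (t1 + l) = t2 - t1 by omega] at h6
      omega

theorem runV' {t1 t2 N1 j1 o1 N2 j2 o2 n : ℕ} (h1 : At p t1 N1 j1 o1)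
    (h2 : At p t2 N2 j2 o2) (hlt : t1 < t2) (hV1 : o1 < N1 + 1) (hV2 : o2 < N2 + 1)
    (hY : ∀ t < n, Y p (t1 + t) = Y p (t2 + t))
    (hM : ∀ t < n, ¬ Mn p (t1 + t) (t2 - t1)) : n ≤ 1 + 3 * EE p (t2 - t1) := by
  have hD1 := DD_eq (p := p) N1
  have hD2 := DD_eq (p := p) N2
  have hL1 := Λ_mul (p := p) N1
  have hL2 := Λ_mul (p := p) N2
  rcases Nat.eq_zero_or_pos n with h0 | h0
  · omega
  · rcases runV h1 h2 hlt hV1 hV2 h0 hY (hM 0 h0) with h3 | ⟨l, hl, hln, h4, h5⟩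
    · omega
    · have h6 := runT' (n := n - l) (h1.add (i := l) (by omega)) (h2.add (i := l) (by omega))
        (by omega) (by omega) (by omega) (by omega) (by omega)
        (fun t ht => by
          have := hY (l + t) (by omega)
          rw [show t1 + l + t = t1 + (l + t) by omega, show t2 + l + t = t2 + (l + t) by omega]
          exact this)
        (fun t ht => by
          have := hM (l + t) (by omega)
          rw [show t1 + l + t = t1 + (l + t) by omega,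
            show t2 + l - (t1 + l) = t2 - t1 by omega]
          exact this)
      rw [show t2 + l - (t1 + l) = t2 - t1 by omega] at h6
      omega

/-- a repetition without main places is short -/
theorem walk {a d n : ℕ} (hd : 0 < d) (hY : ∀ t < n, Y p (a + t) = Y p (a + d + t))
    (hM : ∀ t < n, ¬ Mn p (a + t) d) : n ≤ 1 + 3 * EE p d := by
  rcases Nat.eq_zero_or_pos n with h0 | h0
  · omega
  obtain ⟨N1, j1, o1, h1⟩ := exists_at (p := p) a
  obtain ⟨N2, j2, o2, h2⟩ := exists_at (p := p) (a + d)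
  have hs : a + d - a = d := by omega
  have hM' : ∀ t < n, ¬ Mn p (a + t) (a + d - a) := by
    rw [hs]
    exact hM
  have e := hY 0 h0
  rw [Nat.add_zero, Nat.add_zero, h1.Y_eq, h2.Y_eq] at e
  have e2 := congrArg Prod.snd e
  simp only at e2
  have e3 : (∃ b, ty p N1 j1 o1 = Ty.V b) ↔ (∃ b, ty p N2 j2 o2 = Ty.V b) := by
    rw [e2]
  have e4 : (ty p N1 j1 o1 = Ty.M) ↔ (ty p N2 j2 o2 = Ty.M) := by
    rw [e2]
  rw [ty_eq_V_iff h1.ho, ty_eq_V_iff h2.ho] at e3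
  rw [ty_eq_M_iff h1.ho, ty_eq_M_iff h2.ho] at e4
  have ho1 := h1.ho
  have ho2 := h2.ho
  by_cases c1 : o1 < N1 + 1
  · have := runV' h1 h2 (by omega) c1 (e3.1 c1) hY hM'
    rw [hs] at this
    exact this
  · by_cases c2 : o1 + 1 = DD p N1
    · have := runM h1 h2 (by omega) c2 (e4.1 c2) hY hM'
      rw [hs] at this
      omega
    · have := runT' h1 h2 (by omega) (by omega) (by omega) (by omega) (by omega) hY hM'
      rw [hs] at this
      omega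

end Pool.Agent.H38.Ace.Low
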