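import Pool.Agent.H38.Ace.LowPhi

/-!
# The lower bound: the word of syllables
-/

set_option autoImplicit false

namespace Pool.Agent.H38.Ace.Low

variable (p : Prm)

/-- the length of a copy in the stage number `N` -/
def DD (N : ℕ) : ℕ := (p.Λ + 1) * (N + 1) + 1

/-- the beginning of the stage number `N` -/
def ZZ : ℕ → ℕ
  | 0 => 0
  | (N + 1) => ZZ N + 2 * p.k * DD p N

/-- the class of the copy number `j` of a stage -/
def cls (j : ℕ) : Fin p.k := ⟨(j + 1) % p.k, Nat.mod_lt _ p.hk⟩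

/-- the type of the syllable number `o` of the copy number `j` of the stage number `N` -/
def ty (N j o : ℕ) : Ty :=
  if o < N + 1 then Ty.V (p.x (ZZ p N + o))
  else if o = (p.Λ + 1) * (N + 1) then Ty.M
  else Ty.T (p.x (if j + 1 = 2 * p.k then ZZ p N + j * DD p N + o else ZZ p N + o))

theorem DD_pos (N : ℕ) : 0 < DD p N := Nat.succ_pos _

theorem ZZ_succ (N : ℕ) : ZZ p (N + 1) = ZZ p N + 2 * p.k * DD p N := rfl

theorem ZZ_strictMono : StrictMono (ZZ p) :=
  strictMono_nat_of_lt_succ fun N => by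
    rw [ZZ_succ]
    have : 0 < 2 * p.k * DD p N := Nat.mul_pos (Nat.mul_pos (by norm_num) p.hk) (DD_pos p N)
    omega

theorem exists_stage (t : ℕ) : ∃ N, t < ZZ p (N + 1) :=
  ⟨t, lt_of_lt_of_le (Nat.lt_succ_self t) (ZZ_strictMono p).le_apply⟩

open Classical in
/-- the stage of a place -/
noncomputable def stg (t : ℕ) : ℕ := Nat.find (exists_stage p t)

/-- the word of syllables -/
noncomputable def Y (t : ℕ) : Fin p.k × Ty :=
  (cls p ((t - ZZ p (stg p t)) / DD p (stg p t)),
    ty p (stg p t) ((t - ZZ p (stg p t)) / DD p (stg p t))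
      ((t - ZZ p (stg p t)) % DD p (stg p t)))

/-- the place `t` is the place number `o` of the copy number `j` of the stage number `N` -/
structure At (t N j o : ℕ) : Prop where
  hj : j < 2 * p.k
  ho : o < DD p N
  ht : t = ZZ p N + j * DD p N + o

variable {p}

theorem At.lt_next {t N j o : ℕ} (h : At p t N j o) : t < ZZ p (N + 1) := by
  obtain ⟨hj, ho, ht⟩ := h
  rw [ZZ_succ, ht]
  have h1 : (j + 1) * DD p N ≤ 2 * p.k * DD p N := Nat.mul_le_mul_right _ hj
  rw [Nat.add_mul] at h1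
  omega

theorem At.ge {t N j o : ℕ} (h : At p t N j o) : ZZ p N ≤ t := by
  rw [h.ht]
  omega

theorem stg_eq {t N : ℕ} (h1 : ZZ p N ≤ t) (h2 : t < ZZ p (N + 1)) : stg p t = N := by
  classical
  unfold stg
  rw [Nat.find_eq_iff]
  refine ⟨h2, fun n hn hx => ?_⟩
  have := (ZZ_strictMono p).monotone (show n + 1 ≤ N by omega)
  omega

theorem exists_at (t : ℕ) : ∃ N j o, At p t N j o := by
  classical
  have h2 : t < ZZ p (stg p t + 1) := Nat.find_spec (exists_stage p t)
  have h1 : ZZ p (stg p t) ≤ t := by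
    rcases Nat.eq_zero_or_pos (stg p t) with h0 | h0
    · rw [h0]
      exact Nat.zero_le _
    · have := Nat.find_min (exists_stage p t) (show stg p t - 1 < stg p t by omega)
      rw [Nat.sub_add_cancel h0] at this
      exact not_lt.1 this
  generalize stg p t = N at h1 h2
  obtain ⟨r, rfl⟩ := Nat.exists_eq_add_of_le h1
  rw [ZZ_succ] at h2
  refine ⟨N, r / DD p N, r % DD p N, ?_, Nat.mod_lt _ (DD_pos p N), ?_⟩
  · rw [Nat.div_lt_iff_lt_mul (DD_pos p N)]
    omega
  · have := Nat.div_add_mod r (DD p N)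
    rw [Nat.mul_comm] at this
    omega

theorem At.Y_eq {t N j o : ℕ} (h : At p t N j o) : Y p t = (cls p j, ty p N j o) := by
  have h1 := stg_eq h.ge h.lt_next
  unfold Y
  have h2 : t - ZZ p N = o + DD p N * j := by
    rw [h.ht, Nat.mul_comm (DD p N)]
    omega
  have h3 : (t - ZZ p N) / DD p N = j := by
    rw [h2, Nat.add_mul_div_left _ _ (DD_pos p N), Nat.div_eq_of_lt h.ho, Nat.zero_add]
  have h4 : (t - ZZ p N) % DD p N = o := by
    rw [h2, Nat.add_mul_mod_self_left, Nat.mod_eq_of_lt h.ho]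
  rw [h1, h3, h4]

theorem At.unique {t N j o N' j' o' : ℕ} (h : At p t N j o) (h' : At p t N' j' o') :
    N = N' ∧ j = j' ∧ o = o' := by
  have h1 : N = N' := by
    rw [← stg_eq h.ge h.lt_next, ← stg_eq h'.ge h'.lt_next]
  subst h1
  have h2 : j = j' := by
    have e1 := h.ht
    have e2 := h'.ht
    have e3 := h.ho
    have e4 := h'.ho
    rcases Nat.lt_trichotomy j j' with h3 | h3 | h3
    · have := Nat.mul_le_mul_right (DD p N) (show j + 1 ≤ j' from h3)
      rw [Nat.add_mul] at this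
      omega
    · exact h3
    · have := Nat.mul_le_mul_right (DD p N) (show j' + 1 ≤ j from h3)
      rw [Nat.add_mul] at this
      omega
  subst h2
  have e1 := h.ht
  have e2 := h'.ht
  exact ⟨rfl, rfl, by omega⟩

theorem At.add {t N j o : ℕ} (h : At p t N j o) {i : ℕ} (hi : o + i < DD p N) :
    At p (t + i) N j (o + i) := ⟨h.hj, hi, by rw [h.ht]; omega⟩

/-- the place after the end of a copy -/
theorem At.next {t N j o : ℕ} (h : At p t N j o) (ho : o + 1 = DD p N) :
    ∃ N' j', At p (t + 1) N' j' 0 := by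
  by_cases hj : j + 1 < 2 * p.k
  · refine ⟨N, j + 1, hj, DD_pos p N, ?_⟩
    rw [h.ht, Nat.add_mul]
    omega
  · refine ⟨N + 1, 0, by have := p.hk; omega, DD_pos p _, ?_⟩
    have h1 := h.hj
    have h2 : 2 * p.k = j + 1 := by omega
    rw [h.ht, ZZ_succ, h2, Nat.add_mul]
    omega

/-- the order of the coordinates -/
theorem At.order {t N j o t' N' j' o' : ℕ} (h : At p t N j o) (h' : At p t' N' j' o')
    (hlt : t < t') : N < N' ∨ (N = N' ∧ (j < j' ∨ (j = j' ∧ o < o'))) := by
  rcases Nat.lt_trichotomy N N' with h1 | h1 | h1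
  · exact Or.inl h1
  · subst h1
    refine Or.inr ⟨rfl, ?_⟩
    have e1 := h.ht
    have e2 := h'.ht
    have e3 := h.ho
    have e4 := h'.ho
    rcases Nat.lt_trichotomy j j' with h3 | h3 | h3
    · exact Or.inl h3
    · subst h3
      exact Or.inr ⟨rfl, by omega⟩
    · have := Nat.mul_le_mul_right (DD p N) (show j' + 1 ≤ j from h3)
      rw [Nat.add_mul] at this
      omega
  · have e1 := h.ge
    have e2 := h'.lt_next
    have := (ZZ_strictMono p).monotone (show N' + 1 ≤ N from h1)
    omega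

/-! ### the types -/

theorem DD_eq (N : ℕ) : DD p N = p.Λ * (N + 1) + (N + 1) + 1 := by
  unfold DD
  ring

theorem Λ_mul (N : ℕ) : N + 1 ≤ p.Λ * (N + 1) := Nat.le_mul_of_pos_left _ p.hΛ

theorem ty_V {N j o : ℕ} (h : o < N + 1) : ty p N j o = Ty.V (p.x (ZZ p N + o)) := by
  unfold ty
  rw [if_pos h]

theorem ty_M {N j o : ℕ} (h : o + 1 = DD p N) : ty p N j o = Ty.M := by
  have h1 := Λ_mul (p := p) N
  have h2 := DD_eq (p := p) N
  have h3 : (p.Λ + 1) * (N + 1) = p.Λ * (N + 1) + (N + 1) := by ring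
  unfold ty
  rw [if_neg (by omega), if_pos (by omega)]

theorem ty_T {N j o : ℕ} (h : N + 1 ≤ o) (h' : o + 1 < DD p N) : ty p N j o =
    Ty.T (p.x (if j + 1 = 2 * p.k then ZZ p N + j * DD p N + o else ZZ p N + o)) := by
  have h2 := DD_eq (p := p) N
  have h3 : (p.Λ + 1) * (N + 1) = p.Λ * (N + 1) + (N + 1) := by ring
  unfold ty
  rw [if_neg (by omega), if_neg (by omega)]

theorem ty_eq_V_iff {N j o : ℕ} (ho : o < DD p N) : (∃ b, ty p N j o = Ty.V b) ↔ o < N + 1 := by
  constructor
  · rintro ⟨b, hb⟩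
    by_contra h
    by_cases h2 : o + 1 = DD p N
    · rw [ty_M h2] at hb
      cases hb
    · rw [ty_T (by omega) (by omega)] at hb
      cases hb
  · intro h
    exact ⟨_, ty_V h⟩

theorem ty_eq_M_iff {N j o : ℕ} (ho : o < DD p N) : ty p N j o = Ty.M ↔ o + 1 = DD p N := by
  constructor
  · intro hb
    by_contra h
    by_cases h2 : o < N + 1
    · rw [ty_V h2] at hb
      cases hb
    · rw [ty_T (by omega) (by omega)] at hb
      cases hb
  · exact fun h => ty_M h

end Pool.Agent.H38.Ace.Low
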