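import Pool.Agent.H38.Ace.Basic

/-!
# Images under morphisms without empty images of letters
-/

set_option autoImplicit false

namespace Pool.Agent.H38.Ace.Mor

variable {A B : Type}

theorem pos_zero (f : A → List B) (w : ℕ → A) : pos f w 0 = 0 := by simp [pos, fac]

theorem pos_strictMono {f : A → List B} (h : ∀ a, 0 < (f a).length) (w : ℕ → A) :
    StrictMono (pos f w) :=
  strictMono_nat_of_lt_succ fun n => by
    have := h (w n)
    rw [pos_succ]; omega

theorem le_pos {f : A → List B} (h : ∀ a, 0 < (f a).length) (w : ℕ → A) (n : ℕ) :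
    n ≤ pos f w n := (pos_strictMono h w).le_apply

theorem image_eq [Nonempty B] {f : A → List B} (h : ∀ a, 0 < (f a).length) (w : ℕ → A) (N i : ℕ)
    (hN : i < pos f w N) : ((fac w 0 N).flatMap f)[i]? = some (image f w i) := by
  have h1 : i < pos f w (i + 1) := lt_of_lt_of_le (Nat.lt_succ_self i) (le_pos h w _)
  have h2 : ((fac w 0 (i + 1)).flatMap f)[i]? = some (image f w i) := by
    unfold image
    rw [List.getD_eq_getElem _ _ h1, List.getElem?_eq_getElem h1]
  rcases le_total N (i + 1) with h3 | h3
  · rw [← prefix_getElem? f w N (i + 1) i hN h3, h2]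
  · rw [prefix_getElem? f w (i + 1) N i h1 h3, h2]

theorem flat0 [Nonempty B] {f : A → List B} (h : ∀ a, 0 < (f a).length) (w : ℕ → A) (n : ℕ) :
    (fac w 0 n).flatMap f = fac (image f w) 0 (pos f w n) := by
  apply List.ext_getElem?
  intro i
  by_cases hi : i < pos f w n
  · rw [image_eq h w n i hi, fac_getElem? _ _ _ _ hi, Nat.zero_add]
  · rw [List.getElem?_eq_none (by exact not_lt.1 hi),
      List.getElem?_eq_none (by rw [fac_length]; exact not_lt.1 hi)]

theorem block [Nonempty B] {f : A → List B} (h : ∀ a, 0 < (f a).length) (w : ℕ → A) (n : ℕ) :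
    f (w n) = fac (image f w) (pos f w n) (f (w n)).length := by
  have h1 := flat0 h w (n + 1)
  rw [fac_succ, List.flatMap_append, flat0 h w n, pos_succ, fac_add] at h1
  have h2 := List.append_cancel_left h1
  simpa using h2

theorem flat [Nonempty B] {f : A → List B} (h : ∀ a, 0 < (f a).length) (w : ℕ → A) (n L : ℕ) :
    (fac w n L).flatMap f = fac (image f w) (pos f w n) (pos f w (n + L) - pos f w n) := by
  induction L with
  | zero => simp [fac]
  | succ L ih =>
    have hm := (pos_strictMono h w).monotone (show n ≤ n + L by omega)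
    rw [fac_succ, List.flatMap_append, ih, ← add_assoc, pos_succ,
      show pos f w (n + L) + (f (w (n + L))).length - pos f w n =
        (pos f w (n + L) - pos f w n) + (f (w (n + L))).length by omega, fac_add,
      show pos f w n + (pos f w (n + L) - pos f w n) = pos f w (n + L) by omega, ← block h]
    simp

/-- the letters of a block -/
theorem block_get [Nonempty B] {f : A → List B} (h : ∀ a, 0 < (f a).length) (w : ℕ → A)
    (n r : ℕ) (hr : r < (f (w n)).length) :
    (f (w n))[r]? = some (image f w (pos f w n + r)) := by
  have h1 := block h w n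
  conv_lhs => rw [h1]
  rw [fac_getElem? _ _ _ _ hr]

/-- every place of the image lies in a block -/
theorem exists_block {f : A → List B} (h : ∀ a, 0 < (f a).length) (w : ℕ → A) (x : ℕ) :
    ∃ j, pos f w j ≤ x ∧ x < pos f w (j + 1) := by
  classical
  have hex : ∃ j, x < pos f w (j + 1) := ⟨x, lt_of_lt_of_le (Nat.lt_succ_self x) (le_pos h w _)⟩
  refine ⟨Nat.find hex, ?_, Nat.find_spec hex⟩
  by_contra hc
  push Not at hc
  rcases Nat.eq_zero_or_pos (Nat.find hex) with h0 | h0
  · rw [h0, pos_zero] at hc
    omega
  · have := Nat.find_min hex (show Nat.find hex - 1 < Nat.find hex by omega)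
    rw [Nat.sub_add_cancel h0] at this
    exact this hc

/-- an upper bound for the distance of two block beginnings -/
theorem pos_add_le {f : A → List B} (w : ℕ → A) (j M c : ℕ)
    (hc : ∀ i < M, (f (w (j + i))).length ≤ c) : pos f w (j + M) ≤ pos f w j + M * c := by
  induction M with
  | zero => simp
  | succ M ih =>
    have h1 := hc M (Nat.lt_succ_self M)
    have h2 := ih fun i hi => hc i (by omega)
    rw [← add_assoc, pos_succ, Nat.succ_mul]
    omega

/-- a lower bound for the distance of two block beginnings -/
theorem le_pos_add {f : A → List B} (w : ℕ → A) (j M c : ℕ)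
    (hc : ∀ i < M, c ≤ (f (w (j + i))).length) : pos f w j + M * c ≤ pos f w (j + M) := by
  induction M with
  | zero => simp
  | succ M ih =>
    have h1 := hc M (Nat.lt_succ_self M)
    have h2 := ih fun i hi => hc i (by omega)
    rw [← add_assoc, pos_succ, Nat.succ_mul]
    omega

end Pool.Agent.H38.Ace.Mor
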