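import Pool.Agent.H38.Ace.Upper

/-!
# The sharp upper bound

At a place where the next letters of the image are lexicographically largest among the places
nearby, the blocks which cross the place in a periodic part of the image are blocks of at most
`card A - 1` different letters.
-/

set_option autoImplicit false

open scoped ENNReal NNReal

namespace Pool.Agent.H38.Ace

variable {A B : Type}

/-- a place that is largest in a wide window around it -/
theorem plateau (Φ : ℕ → ℕ) (L : ℕ) : ∀ (b lo hi : ℕ), lo + 4 * L * (b + 1) ≤ hi →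
    (∀ i, lo ≤ i → i ≤ hi → Φ i < b) →
    ∃ lo' hi' r, lo ≤ lo' ∧ hi' ≤ hi ∧ lo' + 2 * L ≤ r ∧ r + 2 * L ≤ hi' ∧
      ∀ i, lo' ≤ i → i ≤ hi' → Φ i ≤ Φ r := by
  intro b
  induction b with
  | zero =>
    intro lo hi h1 h2
    exact absurd (h2 lo le_rfl (by omega)) (Nat.not_lt_zero _)
  | succ b ih =>
    intro lo hi h1 h2
    have h0 : 4 * L * (b + 1 + 1) = 4 * L * (b + 1) + 4 * L := by ring
    have h00 : 4 * L * (b + 1) = 4 * L * b + 4 * L := by ring
    obtain ⟨r, hr, hmax⟩ := Finset.exists_max_image (Finset.Icc (lo + 2 * L) (hi - 2 * L)) Φ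
      ⟨lo + 2 * L, Finset.mem_Icc.2 ⟨le_rfl, by omega⟩⟩
    rw [Finset.mem_Icc] at hr
    by_cases h3 : ∀ i, lo ≤ i → i ≤ hi → Φ i ≤ Φ r
    · exact ⟨lo, hi, r, le_rfl, le_rfl, hr.1, by omega, h3⟩
    · push Not at h3
      obtain ⟨i, hi1, hi2, hi3⟩ := h3
      obtain ⟨lo', hi', r', a1, a2, a3, a4, a5⟩ := ih (lo + 2 * L) (hi - 2 * L) (by omega) (by
        intro k hk1 hk2
        have h4 := hmax k (Finset.mem_Icc.2 ⟨hk1, hk2⟩)
        have h5 := h2 i hi1 hi2
        omega)
      exact ⟨lo', hi', r', by omega, by omega, a3, a4, a5⟩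

theorem val_le_drop {b : ℕ} {g : ℕ → ℕ} {a a' d m : ℕ}
    (hh : ∀ i < d, g (a + i) = g (a' + i))
    (h : val b g a (d + m) ≤ val b g a' (d + m)) :
    val b g (a + d) m ≤ val b g (a' + d) m := by
  rw [val_add, val_add, val_congr b hh] at h
  exact Nat.le_of_add_le_add_left h

theorem val_le_take {b : ℕ} {g : ℕ → ℕ} (hg : ∀ i, g i < b) {a a' d m : ℕ}
    (h : val b g a (d + m) ≤ val b g a' (d + m)) : val b g a d ≤ val b g a' d := by
  rw [val_add, val_add] at h
  by_contra hc
  push Not at hc
  have h4 := val_lt hg (a' + d) m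
  have h5 : (val b g a' d + 1) * b ^ m ≤ val b g a d * b ^ m := Nat.mul_le_mul_right _ hc
  rw [Nat.add_mul, Nat.one_mul] at h5
  omega

/-- the sharp bound for the length of a periodic part of the image -/
theorem bound2 [Nonempty B] [Fintype A] {f : A → List B} (h : InjMorphism f) {L : ℕ}
    (hL : ∀ a, (f a).length ≤ L) (w : ℕ → A) (K m0 : ℕ) (hK : 0 < K)
    (hw : ∀ M ≥ m0, ∀ j V, IsPower (fac w j M) V → M < K * V.length)
    (N0 : ℕ) (hN0 : ∀ j d, 0 < d → d ≤ 2 * L →
      ∃ i, i + d < N0 ∧ image f w (j + (i + d)) ≠ image f w (j + i))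
    (b : ℕ) (g : ℕ → ℕ) (hgb : ∀ i, g i < b)
    (hg : ∀ i j, g i = g j → image f w i = image f w j)
    (hg' : ∀ i j, image f w i = image f w j → g i = g j)
    (s l q : ℕ)
    (hper : ∀ i, i + q < l → image f w (s + (i + q)) = image f w (s + i))
    (hq : (L + 4 * L * (b ^ N0 + 1)) + N0 + 2 * L < q) (hqm : m0 * L ≤ q)
    (hl : (Fintype.card A - 1) * K * q + ((L + 4 * L * (b ^ N0 + 1)) + N0 + 2 * L) ≤ l) :
    False := by
  classical
  have hL0 : 0 < L := lt_of_lt_of_le (h.length_pos (w 0)) (hL _)
  have hNL : 2 * L < N0 := by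
    obtain ⟨i, hi, -⟩ := hN0 0 (2 * L) (by omega) le_rfl
    omega
  choose jb hjb1 hjb2 using exists_block h w
  have hq0 : 0 < q := by omega
  let T : ℕ → B := fun i => image f w (s + i % q)
  have hTe : ∀ i < l, image f w (s + i) = T i := fun i hi =>
    per_region (T := fun i => image f w (s + i)) hq0 hper i hi
  let G : ℕ → ℕ := fun i => g (s + i % q)
  have hGb : ∀ i, G i < b := fun i => hgb _
  have hGT : ∀ i j, G i = G j → T i = T j := fun i j hij => hg _ _ hij
  have hTG : ∀ i j, T i = T j → G i = G j := fun i j hij => hg' _ _ hij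
  have hTm : ∀ x z, x % q = z % q → T x = T z := by
    intro x z hxz
    simp only [T]
    rw [hxz]
  have hTq : ∀ x k, T (x + k * q) = T x := fun x k => hTm _ _ (Nat.add_mul_mod_self_right _ _ _)
  have hTadd : ∀ x k, T (x % q + k) = T (x + k) := fun x k => hTm _ _ (by rw [Nat.mod_add_mod])
  have hnp : ∀ x d, x + N0 ≤ l → 0 < d → d ≤ 2 * L →
      ¬ ∀ i, i + d < N0 → T (x + (i + d)) = T (x + i) := by
    intro x d hx hd hdL hcon
    obtain ⟨i, hi, hne⟩ := hN0 (s + x) d hd hdL
    apply hne
    rw [add_assoc, add_assoc, hTe _ (by omega), hTe _ (by omega)]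
    exact hcon i hi
  have hblk : ∀ J J' k, w J = w J' → k < (f (w J)).length → s ≤ pos f w J → s ≤ pos f w J' →
      pos f w J - s + k < l → pos f w J' - s + k < l →
      T (pos f w J - s + k) = T (pos f w J' - s + k) := by
    intro J J' k hJJ hk h1 h2 h3 h4
    rw [← hTe _ h3, ← hTe _ h4]
    have h5 := block_eq h w hJJ hk
    rw [show s + (pos f w J - s + k) = pos f w J + k by omega,
      show s + (pos f w J' - s + k) = pos f w J' + k by omega]
    exact h5
  set W := L + 4 * L * (b ^ N0 + 1) with hW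
  obtain ⟨lo, hi, r, hlo, hhi, hr1, hr2, hmax⟩ := plateau (fun r => val b G r N0) L (b ^ N0) L W
    le_rfl (fun i _ _ => val_lt hGb i N0)
  have hmax' : ∀ i, lo ≤ i → i ≤ hi → val b G i N0 ≤ val b G r N0 := hmax
  set N1 := (Fintype.card A - 1) * K + 1 with hN1
  have hiq : ∀ i < N1, i * q ≤ (Fintype.card A - 1) * K * q := fun i hi =>
    Nat.mul_le_mul_right _ (by omega)
  have hxl : ∀ i < N1, r + i * q + N0 + 4 * L ≤ l := by
    intro i hi
    have := hiq i hi
    omega
  let J : ℕ → ℕ := fun i => jb (s + (r + i * q))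
  let o : ℕ → ℕ := fun i => s + (r + i * q) - pos f w (J i)
  have hJ1 : ∀ i, pos f w (J i) ≤ s + (r + i * q) := fun i => hjb1 _
  have hJ2 : ∀ i, s + (r + i * q) < pos f w (J i) + (f (w (J i))).length := fun i => hjb2 _
  have ho : ∀ i, pos f w (J i) + o i = s + (r + i * q) := fun i => by
    have := hJ1 i
    simp only [o]
    omega
  have hol : ∀ i, o i < (f (w (J i))).length := fun i => by
    have := ho i
    have := hJ2 i
    omega
  have hoL : ∀ i, o i < L := fun i => lt_of_lt_of_le (hol i) (hL _)
  have hps : ∀ i, pos f w (J i) - s = r - o i + i * q := fun i => by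
    have := ho i
    have := hoL i
    omega
  have hJs : ∀ i, s ≤ pos f w (J i) := fun i => by
    have := ho i
    have := hoL i
    omega
  have hrq : r < q := by omega
  -- the offset of a letter is unique
  have huniq : ∀ i < N1, ∀ i' < N1, w (J i) = w (J i') → ¬ (o i < o i') := by
    intro i hi i' hi' hww hlt
    obtain ⟨d, hd⟩ := Nat.exists_eq_add_of_lt hlt
    set d' := d + 1 with hd'
    have hod : o i' = o i + d' := by omega
    have e1 := hoL i
    have e2 := hoL i'
    have e3 := hol i'
    have e4 := hxl i hi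
    have e5 := hxl i' hi'
    have hagree : ∀ t < d', T (r - d' + t) = T (r + t) := by
      intro t ht
      have h1 := hblk (J i') (J i) (o i + t) hww.symm (by omega) (hJs i') (hJs i)
        (by rw [hps]; omega) (by rw [hps]; omega)
      rw [hps, hps, show r - o i' + i' * q + (o i + t) = (r - d' + t) + i' * q by omega,
        show r - o i + i * q + (o i + t) = (r + t) + i * q by omega, hTq, hTq] at h1
      exact h1
    obtain ⟨m, hm⟩ : ∃ m, N0 = d' + m := ⟨N0 - d', by omega⟩
    have h1 := hmax' (r - d') (by omega) (by omega)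
    have h2 := hmax' (r + d') (by omega) (by omega)
    have h3 : val b G r m ≤ val b G (r + d') m := by
      have h4 := val_le_drop (b := b) (g := G) (a := r - d') (a' := r) (d := d') (m := m)
        (fun t ht => hTG _ _ (hagree t ht)) (by rw [← hm]; exact h1)
      rwa [Nat.sub_add_cancel (by omega)] at h4
    have h4 : val b G (r + d') m ≤ val b G r m :=
      val_le_take hGb (d := m) (m := d') (by rw [add_comm m d', ← hm]; exact h2)
    have h5 := val_inj hGb (le_antisymm h3 h4)
    apply hnp r d' (by omega) (by omega) (by omega)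
    intro t ht
    have h6 := h5 t (by omega)
    rw [show r + (t + d') = r + d' + t by omega]
    exact (hGT _ _ h6).symm
  have huniq' : ∀ i < N1, ∀ i' < N1, w (J i) = w (J i') → o i = o i' := by
    intro i hi i' hi' hww
    have h1 := huniq i hi i' hi' hww
    have h2 := huniq i' hi' i hi hww.symm
    omega
  -- some letter does not cross
  have hmiss : ∃ a : A, ∀ i < N1, w (J i) ≠ a := by
    by_contra hall
    push Not at hall
    let S : Finset ℕ := (Finset.range (s + l + 1)).filter (fun j => s ≤ pos f w j ∧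
      pos f w j - s + L ≤ l ∧ lo + L ≤ (pos f w j - s) % q ∧ (pos f w j - s) % q + L ≤ hi)
    have hmemS : ∀ j, s ≤ pos f w j → pos f w j - s + L ≤ l → lo + L ≤ (pos f w j - s) % q →
        (pos f w j - s) % q + L ≤ hi → j ∈ S := by
      intro j h1 h2 h3 h4
      rw [Finset.mem_filter, Finset.mem_range]
      have := le_pos h w j
      exact ⟨by omega, h1, h2, h3, h4⟩
    have hmodJ : ∀ i, (pos f w (J i) - s) % q = r - o i := by
      intro i
      rw [hps, Nat.add_mul_mod_self_right, Nat.mod_eq_of_lt (by omega)]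
    have hJS : ∀ i < N1, J i ∈ S := by
      intro i hi
      have h1 := hoL i
      have h2 := hxl i hi
      apply hmemS _ (hJs i)
      · rw [hps]; omega
      · rw [hmodJ]; omega
      · rw [hmodJ]; omega
    obtain ⟨j, hj, hjmax⟩ := Finset.exists_max_image S
      (fun j => val b G ((pos f w j - s) % q) N0) ⟨J 0, hJS 0 (by omega)⟩
    rw [Finset.mem_filter] at hj
    obtain ⟨-, hj1, hj2, hj3, hj4⟩ := hj
    set ρ := (pos f w j - s) % q with hρ
    -- the next letter
    obtain ⟨i, hi, hwi⟩ := hall (w j)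
    have e1 := hoL i
    have e1' := hol i
    have e2 := hxl i hi
    set oi := o i with hoi
    have hA1 : ∀ t < oi, T (r - oi + t) = T (ρ + t) := by
      intro t ht
      have h1 := hblk (J i) j t hwi (by omega) (hJs i) hj1 (by rw [hps]; omega) (by omega)
      rw [hps, show r - o i + i * q + t = (r - oi + t) + i * q by omega, hTq] at h1
      rw [h1, hρ, hTadd]
    have hB1 : val b G (r - oi) N0 ≤ val b G ρ N0 := by
      have h1 := hjmax (J i) (hJS i hi)
      simp only [hmodJ] at h1
      exact h1
    have hB2 : val b G (ρ + oi) N0 ≤ val b G r N0 := hmax' _ (by omega) (by omega)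
    have hC1 : ∀ t < N0 - oi, T (r + t) = T (ρ + oi + t) := by
      obtain ⟨m, hm⟩ : ∃ m, N0 = oi + m := ⟨N0 - oi, by omega⟩
      have h3 : val b G r m ≤ val b G (ρ + oi) m := by
        have h4 := val_le_drop (b := b) (g := G) (a := r - oi) (a' := ρ) (d := oi) (m := m)
          (fun t ht => hTG _ _ (hA1 t ht)) (by rw [← hm]; exact hB1)
        rwa [Nat.sub_add_cancel (by omega)] at h4
      have h4 : val b G (ρ + oi) m ≤ val b G r m :=
        val_le_take hGb (d := m) (m := oi) (by rw [add_comm m oi, ← hm]; exact hB2)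
      intro t ht
      exact hGT _ _ (val_inj hGb (le_antisymm h3 h4) t (by omega))
    -- the letter before
    have hjpos : 0 < j := by
      rcases Nat.eq_zero_or_pos j with h0 | h0
      · subst h0
        have h1 : pos f w 0 = 0 := by simp [pos, fac]
        rw [h1] at hρ
        rw [hρ, Nat.zero_sub, Nat.zero_mod] at hj3
        omega
      · exact h0
    obtain ⟨j', rfl⟩ : ∃ j', j = j' + 1 := ⟨j - 1, by omega⟩
    have hρle : ρ ≤ pos f w (j' + 1) - s := Nat.mod_le _ _
    obtain ⟨i2, hi2, hwi2⟩ := hall (w j')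
    have f1 := hol i2
    have f2 := hxl i2 hi2
    have f3 := hL (w (J i2))
    have hlen := pos_succ f w j'
    have hlen2 := pos_succ f w (J i2)
    rw [← hwi2] at hlen
    set o2 := o i2 with ho2
    obtain ⟨s2, hs2⟩ : ∃ s2, (f (w (J i2))).length = o2 + s2 := ⟨_, (Nat.add_sub_of_le f1.le).symm⟩
    have hs2pos : 0 < s2 := by omega
    have hj's : s ≤ pos f w j' := by omega
    have hA2 : ∀ t < s2, T (ρ - s2 + t) = T (r + t) := by
      intro t ht
      have h1 := hblk (J i2) j' (o2 + t) hwi2 (by omega) (hJs i2) hj's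
        (by rw [hps]; omega) (by omega)
      rw [hps, show r - o i2 + i2 * q + (o2 + t) = (r + t) + i2 * q by omega, hTq] at h1
      rw [h1, hρ]
      apply hTm
      have h2 : (ρ - s2 + t + (pos f w (j' + 1) - s - ρ)) = pos f w j' - s + (o2 + t) := by omega
      have h3 : q ∣ pos f w (j' + 1) - s - ρ := by
        rw [hρ]
        exact Nat.dvd_sub_mod _
      rw [← hρ, ← h2]
      obtain ⟨k, hk⟩ := h3
      rw [hk, Nat.add_mul_mod_self_left]
    have hS2 : J i2 + 1 ∈ S := by
      have h1 : pos f w (J i2 + 1) - s = r + s2 + i2 * q := by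
        have := ho i2
        omega
      have h2 : (pos f w (J i2 + 1) - s) % q = r + s2 := by
        rw [h1, Nat.add_mul_mod_self_right, Nat.mod_eq_of_lt (by omega)]
      apply hmemS
      · have := hJs i2
        omega
      · omega
      · rw [h2]; omega
      · rw [h2]; omega
    have hB3 : val b G (r + s2) N0 ≤ val b G ρ N0 := by
      have h1 : pos f w (J i2 + 1) - s = r + s2 + i2 * q := by
        have := ho i2
        omega
      have h2 : (pos f w (J i2 + 1) - s) % q = r + s2 := by
        rw [h1, Nat.add_mul_mod_self_right, Nat.mod_eq_of_lt (by omega)]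
      have h3 := hjmax (J i2 + 1) hS2
      simp only [h2] at h3
      exact h3
    have hB4 : val b G (ρ - s2) N0 ≤ val b G r N0 := hmax' _ (by omega) (by omega)
    have hC2 : ∀ t < N0 - s2, T (r + s2 + t) = T (ρ + t) := by
      obtain ⟨m, hm⟩ : ∃ m, N0 = s2 + m := ⟨N0 - s2, by omega⟩
      have h3 : val b G ρ m ≤ val b G (r + s2) m := by
        have h4 := val_le_drop (b := b) (g := G) (a := ρ - s2) (a' := r) (d := s2) (m := m)
          (fun t ht => hTG _ _ (hA2 t ht)) (by rw [← hm]; exact hB4)
        rwa [Nat.sub_add_cancel (by omega)] at h4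
      have h4 : val b G (r + s2) m ≤ val b G ρ m :=
        val_le_take hGb (d := m) (m := s2) (by rw [add_comm m s2, ← hm]; exact hB3)
      intro t ht
      exact hGT _ _ (val_inj hGb (le_antisymm h4 h3) t (by omega))
    apply hnp r (s2 + oi) (by omega) (by omega) (by omega)
    intro t ht
    have g1 := hC2 (oi + t) (by omega)
    have g2 := hC1 t (by omega)
    rw [show r + (t + (s2 + oi)) = r + s2 + (oi + t) by omega, g1, g2, ← add_assoc]
  obtain ⟨a0, ha0⟩ := hmiss
  have hcard : (Finset.univ.erase a0 : Finset A).card = Fintype.card A - 1 := by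
    rw [Finset.card_erase_of_mem (Finset.mem_univ _), Finset.card_univ]
  obtain ⟨a, -, ha⟩ := Finset.exists_lt_card_fiber_of_mul_lt_card_of_maps_to
    (s := Finset.range N1) (t := (Finset.univ.erase a0 : Finset A))
    (f := fun i => w (J i)) (n := K)
    (fun i hi => Finset.mem_erase.2 ⟨ha0 i (Finset.mem_range.1 hi), Finset.mem_univ _⟩)
    (by rw [hcard, Finset.card_range]; omega)
  have ha' := ha
  obtain ⟨i0, hi0⟩ := Finset.card_pos.1 (lt_of_le_of_lt (Nat.zero_le _) ha')
  rw [Finset.mem_filter, Finset.mem_range] at hi0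
  obtain ⟨j0, M, V, hV, hV1, hM, hM'⟩ := windows h hL w s l q hq0 hper r (o i0)
    (by have := hoL i0; omega) K hK _ ha J
    (by
      intro i hi
      rw [Finset.mem_filter, Finset.mem_range] at hi
      rw [← huniq' i hi.1 i0 hi0.1 (by rw [hi.2, hi0.2])]
      exact ho i)
    (by
      intro i hi
      rw [Finset.mem_filter, Finset.mem_range] at hi
      have := hxl i hi.1
      omega)
  have h5 : m0 ≤ M := by
    have h6 : m0 * L ≤ M * L := by
      have : q ≤ K * q := Nat.le_mul_of_pos_left q hK
      rw [Nat.mul_comm M L]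
      omega
    exact Nat.le_of_mul_le_mul_right h6 hL0
  have h6 := hw M h5 j0 V hV
  omega

end Pool.Agent.H38.Ace
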